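import Mathlib

set_option autoImplicit false

/-! Configurations of pairwise isoclinic subspaces, described by symmetric idempotents. -/

namespace Pool.Agent.H32Iso

open Module

variable {W : Type*} [NormedAddCommGroup W] [InnerProductSpace ℝ W] {ι : Type*}

/-- A configuration of symmetric idempotents with the isoclinic relation. -/
structure Cfg (lam : ℝ) (P : ι → W →ₗ[ℝ] W) : Prop where
  sym : ∀ i x y, inner ℝ (P i x) y = inner ℝ x (P i y)
  idem : ∀ i x, P i (P i x) = P i x
  iso : ∀ i j, i ≠ j → ∀ x, P i (P j (P i x)) = lam • P i x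

/-- `(1 - lam)` times the projection onto the orthogonal complement of `V_i + V_j`. -/
def R (lam : ℝ) (P : ι → W →ₗ[ℝ] W) (i j : ι) : W →ₗ[ℝ] W :=
  (1 - lam) • LinearMap.id - (P i + P j - P i ∘ₗ P j - P j ∘ₗ P i)

theorem R_apply (lam : ℝ) (P : ι → W →ₗ[ℝ] W) (i j : ι) (x : W) :
    R lam P i j x = (1 - lam) • x - (P i x + P j x - P i (P j x) - P j (P i x)) := rfl

theorem R_comm (lam : ℝ) (P : ι → W →ₗ[ℝ] W) (i j : ι) :
    R lam P i j = R lam P j i := by
  ext x; simp only [R_apply]; abel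

namespace Cfg

variable {lam : ℝ} {P : ι → W →ₗ[ℝ] W} (h : Cfg lam P)

include h

theorem R_P_left {i j : ι} (hij : i ≠ j) (x : W) : R lam P i j (P i x) = 0 := by
  simp only [R_apply, h.idem, h.iso i j hij]
  module

theorem R_P_right {i j : ι} (hij : i ≠ j) (x : W) : R lam P i j (P j x) = 0 := by
  rw [R_comm]; exact h.R_P_left hij.symm x

theorem P_R_left {i j : ι} (hij : i ≠ j) (x : W) : P i (R lam P i j x) = 0 := by
  simp only [R_apply, map_sub, map_add, map_smul, h.idem, h.iso i j hij]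
  module

theorem P_R_right {i j : ι} (hij : i ≠ j) (x : W) : P j (R lam P i j x) = 0 := by
  rw [R_comm]; exact h.P_R_left hij.symm x

theorem R_sym (i j : ι) (x y : W) :
    inner ℝ (R lam P i j x) y = inner ℝ x (R lam P i j y) := by
  simp only [R_apply, inner_sub_left, inner_sub_right, inner_add_left, inner_add_right,
    inner_smul_left, inner_smul_right, h.sym, RCLike.conj_to_real]
  ring

theorem R_R {i j : ι} (hij : i ≠ j) (x : W) :
    R lam P i j (R lam P i j x) = (1 - lam) • R lam P i j x := by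
  conv_lhs => rw [R_apply lam P i j (R lam P i j x)]
  rw [h.P_R_left hij, h.P_R_right hij, map_zero, map_zero]
  module

/-- If `⟪x, R x⟫ = 0` then `R x = 0`. -/
theorem R_eq_zero_of_inner {i j : ι} (hij : i ≠ j) {x : W}
    (hx : inner ℝ x (R lam P i j x) = 0) : R lam P i j x = 0 := by
  have : inner ℝ (R lam P i j x) (R lam P i j x) = 0 := by
    rw [h.R_sym, h.R_R hij, inner_smul_right, hx, mul_zero]
  exact inner_self_eq_zero.mp this

/-- the key identity -/
theorem key (i j l : ι) (hij : i ≠ j) (hil : i ≠ l) (hjl : j ≠ l) (a : W) (ha : P i a = a) :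
    P l (R lam P i j (P l a)) = P l (P i (R lam P j l a)) := by
  have e2 : P i (P l a) = lam • a := by
    have := h.iso i l hil a
    rwa [ha] at this
  have e3 : P i (P j a) = lam • a := by
    have := h.iso i j hij a
    rwa [ha] at this
  have e5 : P l (P i (P l (P j a))) = lam • P l (P j a) := h.iso l i hil.symm (P j a)
  simp only [R_apply, map_sub, map_add, map_smul, h.idem, e2, e3, ha, e5,
    h.iso l j (Ne.symm hjl)]

theorem R_P_third {i j l : ι} (hij : i ≠ j) (hil : i ≠ l) (hjl : j ≠ l) (hlam : lam ≠ 1)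
    {v : W} (h1 : R lam P i j v = 0) (h2 : R lam P i l v = 0) (h3 : R lam P j l v = 0) :
    R lam P i j (P l v) = 0 := by
  set a := P i (v - P l v) with ha
  set b := P l (v - P i v) with hb
  have hab : a + b = (1 - lam) • v := by
    have := h2
    rw [R_apply, sub_eq_zero] at this
    rw [this, ha, hb]
    simp only [map_sub]; abel
  have hPa : P i a = a := by rw [ha, h.idem]
  have hPb : P l b = b := by rw [hb, h.idem]
  have hRjla : R lam P j l a = 0 := by
    have : a = (1 - lam) • v - b := by rw [← hab]; abel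
    rw [this, map_sub, map_smul, h3, hb, h.R_P_right hjl]; simp
  have hk := h.key i j l hij hil hjl a hPa
  rw [hRjla, map_zero, map_zero] at hk
  have hRijPla : R lam P i j (P l a) = 0 := by
    apply h.R_eq_zero_of_inner hij
    rw [h.sym, hk, inner_zero_right]
  have hRijb : R lam P i j b = 0 := by
    have : b = (1 - lam) • v - a := by rw [← hab]; abel
    rw [this, map_sub, map_smul, h1, ha, h.R_P_left hij]; simp
  have : (1 - lam) • R lam P i j (P l v) = 0 := by
    rw [← map_smul, ← map_smul, ← hab, map_add, map_add, hPb, hRijPla, hRijb, add_zero]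
  exact (smul_eq_zero.mp this).resolve_left (sub_ne_zero.mpr (Ne.symm hlam))

end Cfg

/-- The common kernel of the `R i j` for `i ≠ j` in `J`. -/
def K (lam : ℝ) (P : ι → W →ₗ[ℝ] W) (J : Finset ι) : Submodule ℝ W where
  carrier := {x | ∀ i ∈ J, ∀ j ∈ J, i ≠ j → R lam P i j x = 0}
  add_mem' := by
    intro a b ha hb i hi j hj hij
    rw [map_add, ha i hi j hj hij, hb i hi j hj hij, add_zero]
  zero_mem' := by intro i _ j _ _; exact map_zero _
  smul_mem' := by
    intro c a ha i hi j hj hij
    rw [map_smul, ha i hi j hj hij, smul_zero]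

theorem mem_K {lam : ℝ} {P : ι → W →ₗ[ℝ] W} {J : Finset ι} {x : W} :
    x ∈ K lam P J ↔ ∀ i ∈ J, ∀ j ∈ J, i ≠ j → R lam P i j x = 0 := Iff.rfl

theorem K_mono {lam : ℝ} {P : ι → W →ₗ[ℝ] W} {J J' : Finset ι} (hJ : J ⊆ J') :
    K lam P J' ≤ K lam P J := by
  intro x hx i hi j hj hij
  exact hx i (hJ hi) j (hJ hj) hij

theorem Cfg.K_inv {lam : ℝ} {P : ι → W →ₗ[ℝ] W} (h : Cfg lam P) (hlam : lam ≠ 1)
    {J : Finset ι} {l : ι} (hl : l ∈ J) {x : W} (hx : x ∈ K lam P J) : P l x ∈ K lam P J := by
  intro i hi j hj hij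
  by_cases hil : i = l
  · subst hil; exact h.R_P_left hij x
  by_cases hjl : j = l
  · subst hjl; exact h.R_P_right hij x
  exact h.R_P_third hij hil hjl hlam (hx i hi j hj hij) (hx i hi l hl hil) (hx j hj l hl hjl)

theorem Cfg.K_orth_inv {lam : ℝ} {P : ι → W →ₗ[ℝ] W} (h : Cfg lam P) (hlam : lam ≠ 1)
    {J : Finset ι} {l : ι} (hl : l ∈ J) {x : W} (hx : x ∈ (K lam P J)ᗮ) :
    P l x ∈ (K lam P J)ᗮ := by
  rw [Submodule.mem_orthogonal] at hx ⊢
  intro u hu
  rw [← h.sym]
  exact hx _ (h.K_inv hlam hl hu)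

end Pool.Agent.H32Iso
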