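import Pool.Agent.H32Iso.Bound

set_option autoImplicit false

namespace Pool.Agent.H32Iso

open Module

variable {W : Type*} [NormedAddCommGroup W] [InnerProductSpace ℝ W] [FiniteDimensional ℝ W]
  {ι : Type*} [DecidableEq ι]

variable {lam : ℝ} {P : ι → W →ₗ[ℝ] W}

omit [FiniteDimensional ℝ W] [DecidableEq ι] in
theorem Cfg.ker_le_sup (h : Cfg lam P) (hlam : lam ≠ 1) {i j : ι} :
    LinearMap.ker (R lam P i j) ≤ LinearMap.range (P i) ⊔ LinearMap.range (P j) := by
  intro v hv
  rw [LinearMap.mem_ker, R_apply, sub_eq_zero] at hv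
  have h0 : (1 - lam) ≠ 0 := sub_ne_zero.mpr (Ne.symm hlam)
  have hv' : v = (1 - lam)⁻¹ • (P i v + P j v - P i (P j v) - P j (P i v)) := by
    rw [← hv, smul_smul, inv_mul_cancel₀ h0, one_smul]
  rw [hv']
  apply Submodule.smul_mem
  have e : P i v + P j v - P i (P j v) - P j (P i v) =
    P i (v - P j v) + P j (v - P i v) := by simp only [map_sub]; abel
  rw [e]
  exact Submodule.add_mem_sup ⟨_, rfl⟩ ⟨_, rfl⟩

theorem Cfg.exists_ne_zero [Fintype ι] (h : Cfg lam P) (hlam : lam ≠ 1) {N k : ℕ} (hk : 0 < k)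
    (hN : ∀ i, finrank ℝ (LinearMap.range (P i)) = N) (hW : finrank ℝ W = 2 * N + k)
    (hspan : ⨆ i, LinearMap.range (P i) = ⊤) (h2 : 2 ≤ Fintype.card ι) (l : ι) :
    ∃ x ∈ (K lam P Finset.univ)ᗮ, P l x ≠ 0 := by
  by_contra hcon
  push Not at hcon
  have hle : LinearMap.range (P l) ≤ K lam P Finset.univ := by
    rintro _ ⟨z, rfl⟩
    rw [← Submodule.orthogonal_orthogonal (K lam P Finset.univ), Submodule.mem_orthogonal']
    intro x hx
    rw [h.sym, hcon x hx, inner_zero_right]
  obtain ⟨i, hi⟩ : ∃ i, i ≠ l := by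
    haveI : Nontrivial ι := Fintype.one_lt_card_iff_nontrivial.mp h2
    exact exists_ne l
  have hall : ∀ j, LinearMap.range (P j) ≤ LinearMap.range (P i) ⊔ LinearMap.range (P l) := by
    intro j
    by_cases hji : j = i
    · subst hji; exact le_sup_left
    by_cases hjl : j = l
    · subst hjl; exact le_sup_right
    have h3 : LinearMap.range (P l) ≤ LinearMap.range (P i) ⊔ LinearMap.range (P j) := by
      refine le_trans ?_ (h.ker_le_sup hlam)
      intro x hx
      exact hle hx i (Finset.mem_univ _) j (Finset.mem_univ _) (Ne.symm hji)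
    have h4 : LinearMap.range (P i) ⊔ LinearMap.range (P l) ≤
      LinearMap.range (P i) ⊔ LinearMap.range (P j) := sup_le le_sup_left h3
    have h5 : LinearMap.range (P i) ⊔ LinearMap.range (P l) =
      LinearMap.range (P i) ⊔ LinearMap.range (P j) := by
      apply Submodule.eq_of_le_of_finrank_eq h4
      rw [h.finrank_sup hlam hN hi, h.finrank_sup hlam hN (Ne.symm hji)]
    rw [h5]; exact le_sup_right
  have h6 : LinearMap.range (P i) ⊔ LinearMap.range (P l) = ⊤ := by
    rw [eq_top_iff, ← hspan]; exact iSup_le hall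
  have h7 := h.finrank_sup hlam hN hi
  rw [h6, finrank_top, hW] at h7
  omega

theorem Cfg.card_le_sq [Fintype ι] (h : Cfg lam P) (h0 : 0 ≤ lam) (h1 : lam < 1) {N k : ℕ}
    (hk : 0 < k)
    (hN : ∀ i, finrank ℝ (LinearMap.range (P i)) = N) (hW : finrank ℝ W = 2 * N + k)
    (hspan : ⨆ i, LinearMap.range (P i) = ⊤) (h2 : 2 ≤ Fintype.card ι) :
    Fintype.card ι ≤ (finrank ℝ (K lam P Finset.univ)ᗮ) ^ 2 := by
  have hlam : lam ≠ 1 := h1.ne
  set E := (K lam P Finset.univ)ᗮ with hE
  have hinv : ∀ i, ∀ x ∈ E, P i x ∈ E := fun i x hx => h.K_orth_inv hlam (Finset.mem_univ i) hx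
  have hli : LinearIndependent ℝ (fun i => (P i).restrict (hinv i)) := by
    rw [Fintype.linearIndependent_iff]
    intro g hg
    have hrel : ∀ j, (1 - lam) * g j + lam * ∑ i, g i = 0 := by
      intro j
      obtain ⟨x, hx, hne⟩ := h.exists_ne_zero hlam hk hN hW hspan h2 j
      set y : E := ⟨P j x, hinv j x hx⟩ with hy
      have h3 := LinearMap.congr_fun hg y
      have h4 : ∑ i, g i • P i (P j x) = 0 := by
        have := congrArg (Subtype.val) h3
        simpa [hy, LinearMap.sum_apply, LinearMap.coe_restrict_apply] using this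
      have h5 := congrArg (P j) h4
      rw [map_sum, map_zero] at h5
      have h6 : ∀ i, P j (g i • P i (P j x)) =
          (lam * g i + if i = j then (1 - lam) * g i else 0) • P j x := by
        intro i
        rw [map_smul]
        by_cases hij : i = j
        · subst hij; rw [h.idem, h.idem, if_pos rfl]; module
        · rw [h.iso j i (Ne.symm hij), if_neg hij]; module
      simp_rw [h6] at h5
      rw [← Finset.sum_smul] at h5
      have h7 := (smul_eq_zero.mp h5).resolve_right hne
      rw [Finset.sum_add_distrib, ← Finset.mul_sum] at h7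
      simp only [Finset.sum_ite_eq', Finset.mem_univ, if_true] at h7
      linarith
    have hS : (1 - lam + Fintype.card ι * lam) * ∑ i, g i = 0 := by
      have h8 : ∑ j : ι, ((1 - lam) * g j + lam * ∑ i, g i) = 0 :=
        Finset.sum_eq_zero (fun j _ => hrel j)
      rw [Finset.sum_add_distrib, ← Finset.mul_sum, Finset.sum_const, Finset.card_univ,
        nsmul_eq_mul] at h8
      linarith
    have hpos : (1 - lam + Fintype.card ι * lam) ≠ 0 := by
      have : 0 ≤ (Fintype.card ι : ℝ) * lam := by positivity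
      linarith
    have hS0 := (mul_eq_zero.mp hS).resolve_left hpos
    intro j
    have h9 := hrel j
    rw [hS0, mul_zero, add_zero] at h9
    exact (mul_eq_zero.mp h9).resolve_left (by linarith)
  have := hli.fintype_card_le_finrank
  rwa [Module.finrank_linearMap, ← sq] at this

theorem Cfg.card_bound [Fintype ι] (h : Cfg lam P) (h0 : 0 ≤ lam) (h1 : lam < 1) {N k q : ℕ}
    (hk : 0 < k)
    (hN : ∀ i, finrank ℝ (LinearMap.range (P i)) = N) (hW : finrank ℝ W = 2 * N + k)
    (hspan : ⨆ i, LinearMap.range (P i) = ⊤)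
    (hq : ∀ m, q ≤ m → m * k < 2 ^ ((m - 1) / 2)) :
    Fintype.card ι ≤ max q ((k * (q * (q - 1)) / 2) ^ 2) := by
  by_cases hqc : Fintype.card ι < max q 2
  · have : 2 ≤ max q ((k * (q * (q - 1)) / 2) ^ 2) := by
      have h3 := hq q le_rfl
      rcases Nat.lt_or_ge q 2 with h4 | h4
      · exfalso
        interval_cases q
        · have := hq 1 (by norm_num); simp at this; omega
        · simp at h3; omega
      · exact h4.trans (le_max_left _ _)
    have h5 : max q 2 ≤ max q ((k * (q * (q - 1)) / 2) ^ 2) := max_le (le_max_left _ _) this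
    omega
  push Not at hqc
  have hq1 : q ≤ Fintype.card ι := (le_max_left _ _).trans hqc
  have h2 : 2 ≤ Fintype.card ι := (le_max_right _ _).trans hqc
  obtain ⟨J, _, hJ⟩ := Finset.exists_subset_card_eq (s := (Finset.univ : Finset ι)) hq1
  have hstab := h.K_superset_eq h1.ne hN hW hq J hJ.ge Finset.univ
  have huniv : Finset.univ ∪ J = (Finset.univ : Finset ι) := by simp
  rw [huniv] at hstab
  have hge := h.finrank_K_ge h1.ne hN hW J
  rw [← hstab, hJ] at hge
  have horth := Submodule.finrank_add_finrank_orthogonal (𝕜 := ℝ) (K lam P Finset.univ)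
  have hE : finrank ℝ (K lam P Finset.univ)ᗮ ≤ k * (q * (q - 1)) / 2 := by omega
  have hsq := h.card_le_sq h0 h1 hk hN hW hspan h2
  refine le_trans hsq (le_trans ?_ (le_max_right _ _))
  exact Nat.pow_le_pow_left hE 2

end Pool.Agent.H32Iso
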