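import Pool.Agent.H32Iso.Defs
import Pool.Agent.H32Iso.Main

set_option autoImplicit false

namespace Pool.Agent.H32Iso

open Module

section

variable {F : Type} [NormedDivisionRing F] [InnerProductSpace ℝ F] [IsScalarTower ℝ F F]
  [FiniteDimensional ℝ F] {n r p : ℕ} {lam : ℝ} {V : Fin p → Submodule F (Sp F r)}

/-- The orthogonal projection as a function. -/
noncomputable def proj {r : ℕ} (V : Submodule F (Sp F r)) (x : Sp F r) : Sp F r :=
  (V.restrictScalars ℝ).starProjection x

theorem isProj_iff {r : ℕ} {V : Submodule F (Sp F r)} {x y : Sp F r} :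
    IsProj V x y ↔ proj V x = y := by
  constructor
  · rintro ⟨h1, h2⟩
    exact Submodule.eq_starProjection_of_mem_of_inner_eq_zero (K := V.restrictScalars ℝ) h1
      (fun w hw => h2 w hw)
  · rintro rfl
    refine ⟨Submodule.starProjection_apply_mem (V.restrictScalars ℝ) x, fun w hw => ?_⟩
    exact Submodule.starProjection_inner_eq_zero (K := V.restrictScalars ℝ) x w hw

theorem iso_iff {r : ℕ} {lam : ℝ} {V V' : Submodule F (Sp F r)} :
    Iso lam V V' ↔ ∀ x, proj V (proj V' (proj V x)) = lam • proj V x := by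
  constructor
  · intro h x
    exact h x _ _ _ (isProj_iff.mpr rfl) (isProj_iff.mpr rfl) (isProj_iff.mpr rfl)
  · intro h x y z w h1 h2 h3
    rw [isProj_iff] at h1 h2 h3
    rw [← h3, ← h2, ← h1]; exact h x

/-- the real projections as linear maps -/
noncomputable def EquiIsoclinic.P (_ : EquiIsoclinic F n r p lam V) (i : Fin p) :
    Sp F r →ₗ[ℝ] Sp F r := (((V i).restrictScalars ℝ).starProjection : Sp F r →ₗ[ℝ] Sp F r)

theorem EquiIsoclinic.P_apply (h : EquiIsoclinic F n r p lam V) (i : Fin p) (x : Sp F r) :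
    h.P i x = ((V i).restrictScalars ℝ).starProjection x := rfl

theorem EquiIsoclinic.cfg (h : EquiIsoclinic F n r p lam V) : Cfg lam h.P where
  sym := fun i x y => by
    simp only [P_apply]
    exact Submodule.inner_starProjection_left_eq_right _ x y
  idem := fun i x => by
    simp only [P_apply]
    exact Submodule.starProjection_eq_self_iff.mpr (Submodule.starProjection_apply_mem _ _)
  iso := fun i j hij x => by
    exact iso_iff.mp (h.iso i j hij) x

theorem EquiIsoclinic.range_P (h : EquiIsoclinic F n r p lam V) (i : Fin p) :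
    LinearMap.range (h.P i) = (V i).restrictScalars ℝ :=
  Submodule.range_starProjection _

theorem EquiIsoclinic.finrank_range (h : EquiIsoclinic F n r p lam V) (i : Fin p) :
    finrank ℝ (LinearMap.range (h.P i)) = finrank ℝ F * n := by
  rw [h.range_P, ← h.rank i]
  have : finrank ℝ F * finrank F ((V i).restrictScalars ℝ) =
      finrank ℝ ((V i).restrictScalars ℝ) :=
    Module.finrank_mul_finrank ℝ F ((V i).restrictScalars ℝ)
  rw [← this]
  congr 1

theorem EquiIsoclinic.iSup_range (h : EquiIsoclinic F n r p lam V) :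
    ⨆ i, LinearMap.range (h.P i) = ⊤ := by
  have h1 : (⨆ i, V i).restrictScalars ℝ = ⨆ i, (V i).restrictScalars ℝ := by
    rw [iSup, Submodule.restrictScalars_sSup, ← Set.range_comp]; rfl
  have h2 : ⨆ i, V i = ⊤ := h.span
  rw [h2, Submodule.restrictScalars_top] at h1
  rw [h1]
  exact iSup_congr h.range_P

omit [IsScalarTower ℝ F F] in
theorem finrank_Sp (r : ℕ) : finrank ℝ (Sp F r) = finrank ℝ F * r := by
  rw [(WithLp.linearEquiv 2 ℝ (Fin r → F)).finrank_eq, Module.finrank_pi_fintype]
  simp [mul_comm]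

/-- the explicit bound -/
theorem EquiIsoclinic.card_bound {k : ℕ} (h : EquiIsoclinic F n r p lam V) (hr : r = 2 * n + k)
    (hk : 0 < k) {q : ℕ} (hq : ∀ m, q ≤ m → m * (finrank ℝ F * k) < 2 ^ ((m - 1) / 2)) :
    p ≤ max q ((finrank ℝ F * k * (q * (q - 1)) / 2) ^ 2) := by
  have hF : 0 < finrank ℝ F := finrank_pos
  have := h.cfg.card_bound h.nonneg h.lt_one (N := finrank ℝ F * n) (k := finrank ℝ F * k)
    (Nat.mul_pos hF hk) h.finrank_range (by rw [finrank_Sp, hr]; ring) h.iSup_range hq
  simpa using this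

end

/-- `2 ^ ((m-1)/2) > m k` for all `m ≥ 4 log₂ k + 9`. -/
theorem pow_gt {k : ℕ} (hk : 0 < k) (m : ℕ) (hm : 4 * Nat.log 2 k + 9 ≤ m) :
    m * k < 2 ^ ((m - 1) / 2) := by
  have key : ∀ a : ℕ, 2 * Nat.log 2 k + 4 ≤ a → (2 * a + 2) * k < 2 ^ a := by
    intro a ha
    induction a, ha using Nat.le_induction with
    | base =>
      have h1 : k < 2 ^ (Nat.log 2 k + 1) := Nat.lt_pow_succ_log_self (by norm_num) k
      generalize hl : Nat.log 2 k = l at h1
      rcases Nat.eq_zero_or_pos l with h0 | h0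
      · subst h0
        have : k = 1 := by simp at h1; omega
        subst this; norm_num
      · have h4 : 8 * l + 20 ≤ 16 * 2 ^ l := by
          clear h1 hl
          induction l, h0 using Nat.le_induction with
          | base => norm_num
          | succ n hn ihn =>
            have e : (2:ℕ) ^ (n + 1) = 2 * 2 ^ n := by ring
            have : 1 ≤ 2 ^ n := Nat.one_le_two_pow
            omega
        have e1 : (2:ℕ) ^ (l + 1) = 2 * 2 ^ l := by ring
        have e2 : (2:ℕ) ^ (2 * l + 4) = 16 * 2 ^ l * 2 ^ l := by ring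
        rw [e2]
        calc (2 * (2 * l + 4) + 2) * k < (2 * (2 * l + 4) + 2) * 2 ^ (l + 1) := by
              apply Nat.mul_lt_mul_of_pos_left h1; omega
          _ = (8 * l + 20) * 2 ^ l := by rw [e1]; ring
          _ ≤ 16 * 2 ^ l * 2 ^ l := Nat.mul_le_mul_right _ h4
    | succ a ha ih =>
      have h1 : (2 * (a + 1) + 2) * k ≤ 2 * ((2 * a + 2) * k) := by nlinarith
      calc _ ≤ _ := h1
        _ < 2 * 2 ^ a := by omega
        _ = 2 ^ (a + 1) := by ring
  have h1 := key ((m - 1) / 2) (by omega)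
  have h2 : m ≤ 2 * ((m - 1) / 2) + 2 := by omega
  calc m * k ≤ (2 * ((m - 1) / 2) + 2) * k := Nat.mul_le_mul_right _ h2
    _ < _ := h1

end Pool.Agent.H32Iso
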