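import Pool.Agent.H32Iso.DirectSum

set_option autoImplicit false

/-! Eventual periodicity. -/

namespace Pool.Agent.H32Iso

open Module

section

variable {W : Type*} [NormedAddCommGroup W] [InnerProductSpace ℝ W] [FiniteDimensional ℝ W]
  {ι : Type*} [DecidableEq ι] [Fintype ι] {lam : ℝ} {P : ι → W →ₗ[ℝ] W}

omit [FiniteDimensional ℝ W] in
theorem Cfg.lam_ge (h : Cfg lam P) (hlam : lam ≠ 1) (hK : K lam P Finset.univ ≠ ⊥) :
    0 ≤ (Fintype.card ι : ℝ) * (1 + ((Fintype.card ι : ℝ) - 1) * (2 * lam - 1)) := by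
  obtain ⟨x, hx, hx0⟩ := Submodule.exists_mem_ne_zero_of_ne_bot hK
  set G := K lam P Finset.univ with hG
  have hZ : ∀ l : ι, ∀ x ∈ G, ((2:ℝ) • P l - LinearMap.id : W →ₗ[ℝ] W) x ∈ G := by
    intro l x hx
    rw [LinearMap.sub_apply, LinearMap.smul_apply, LinearMap.id_apply]
    exact G.sub_mem (G.smul_mem _ (h.K_inv hlam (Finset.mem_univ l) hx)) hx
  set Z : ι → G →ₗ[ℝ] G := fun l => ((2:ℝ) • P l - LinearMap.id : W →ₗ[ℝ] W).restrict (hZ l)
    with hZdef
  have hZc : ∀ l (y : G), (Z l y : W) = (2:ℝ) • P l y - y := fun l y => rfl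
  have key := L_anti (M := G) (κ := ι) Z (2 * lam - 1)
    (by
      intro l x
      apply Subtype.ext
      simp only [hZc, map_sub, map_smul, h.idem]
      module)
    (by
      intro i j hij x
      apply Subtype.ext
      have hx := x.2 i (Finset.mem_univ _) j (Finset.mem_univ _) hij
      rw [R_apply, sub_eq_zero] at hx
      simp only [Submodule.coe_add, hZc, map_sub, map_smul, SetLike.val_smul]
      have h2 : P i (P j x.1) + P j (P i x.1) = P i x.1 + P j x.1 - (1 - lam) • x.1 := by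
        rw [hx]; abel
      calc _ = (4:ℝ) • (P i (P j x.1) + P j (P i x.1)) -
          (4:ℝ) • (P i x.1 + P j x.1) + (2:ℝ) • x.1 := by module
        _ = _ := by rw [h2]; module) (fun _ => 1) (fun _ => 1) ⟨x, hx⟩
  have hsymZ : ∀ l (y z : G), inner ℝ (Z l y) z = inner ℝ y (Z l z) := by
    intro l y z
    rw [Submodule.coe_inner, Submodule.coe_inner, hZc, hZc, inner_sub_left, inner_sub_right,
      inner_smul_left, inner_smul_right, h.sym]
    simp
  have hsymL : ∀ (y z : G), inner ℝ (L Z (fun _ => 1) y) z = inner ℝ y (L Z (fun _ => 1) z) := by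
    intro y z
    simp only [L_apply, one_smul, sum_inner, inner_sum, hsymZ]
  set X : G := ⟨x, hx⟩ with hX
  set S := L Z (fun _ => (1:ℝ)) with hS
  have h1 : 0 ≤ inner ℝ (S X) (S X) := real_inner_self_nonneg
  rw [hsymL] at h1
  have h2 : (2:ℝ) * inner ℝ X (S (S X)) =
      (2 * (2 * lam - 1) * (∑ _i : ι, (1:ℝ)) * (∑ _i : ι, (1:ℝ)) +
        (2 - 2 * (2 * lam - 1)) * ∑ _i : ι, (1:ℝ) * 1) * inner ℝ X X := by
    rw [← inner_smul_right, ← inner_smul_right, ← key, two_smul]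
  have h3 : 0 < inner ℝ X X := by
    apply real_inner_self_pos.mpr
    intro h0
    exact hx0 (congrArg Subtype.val h0)
  simp only [Finset.sum_const, Finset.card_univ, nsmul_eq_mul, mul_one] at h2
  by_contra hneg
  push Not at hneg
  have h4 : (2:ℝ) * inner ℝ X (S (S X)) = 2 * ((Fintype.card ι : ℝ) *
      (1 + ((Fintype.card ι : ℝ) - 1) * (2 * lam - 1))) * inner ℝ X X := by
    rw [h2]; ring
  have h5 : 2 * ((Fintype.card ι : ℝ) *
      (1 + ((Fintype.card ι : ℝ) - 1) * (2 * lam - 1))) * inner ℝ X X < 0 := by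
    apply mul_neg_of_neg_of_pos _ h3
    linarith
  linarith

end

section

variable {F : Type} [NormedDivisionRing F] [InnerProductSpace ℝ F] [IsScalarTower ℝ F F]
  [SMulCommClass ℝ F F] [FiniteDimensional ℝ F]

/-- Adding a Clifford block when `n` is large. -/
theorem sizes_step {n k p B : ℕ} (hp2 : 2 ≤ p) (hpB : p ≤ B)
    (hn : finrank ℝ F * k * (p * (p - 1)) < 2 * (finrank ℝ F * (2 * n + k)))
    (hp : p ∈ sizes F n (2 * n + k)) : p ∈ sizes F (n + 2 ^ B) (2 * (n + 2 ^ B) + k) := by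
  obtain ⟨lam, V, h⟩ := hp
  have hlam := h.lt_one
  have hKne : K lam h.P Finset.univ ≠ ⊥ := by
    intro hbot
    have hF : 0 < finrank ℝ F := finrank_pos
    have h1 := h.cfg.finrank_K_ge hlam.ne (N := finrank ℝ F * n) (k := finrank ℝ F * k)
      h.finrank_range (by rw [finrank_Sp]; ring) Finset.univ
    rw [hbot, finrank_bot, Finset.card_univ, Fintype.card_fin, finrank_Sp] at h1
    omega
  have h1 := h.cfg.lam_ge hlam.ne hKne
  rw [Fintype.card_fin] at h1
  have hp0 : (0:ℝ) < p := by positivity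
  have h2 : 0 ≤ 1 + ((p:ℝ) - 1) * (2 * lam - 1) := nonneg_of_mul_nonneg_right h1 hp0
  obtain ⟨Z, T, hZ1, hZ2, hZ3, hT, hTZ⟩ := exists_simplex p B hpB (2 * lam - 1) (by linarith) h2
  have h3 := h.block hp2 (D := 2 ^ B) (by ring) Z T T hZ1 hZ2 hZ3 hT hTZ
  have h4 : 2 * n + k + 2 ^ (B + 1) = 2 * (n + 2 ^ B) + k := by ring
  rw [← h4]
  exact ⟨lam, _, h3⟩

omit [SMulCommClass ℝ F F] in
theorem sizes_zero_one {n k p : ℕ} (hk : 0 < k) (hp : p < 2) : p ∉ sizes F n (2 * n + k) := by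
  rintro ⟨lam, V, h⟩
  have h1 : ⨆ i, V i = ⊤ := h.span
  have h2 : finrank F (Sp F (2 * n + k)) = 2 * n + k := finrankF_Sp
  interval_cases p
  · rw [iSup_of_empty] at h1
    rw [← finrank_top F (Sp F (2 * n + k)), ← h1, finrank_bot] at h2
    omega
  · rw [ciSup_unique] at h1
    have h3 := h.rank default
    rw [h1, finrank_top, h2] at h3
    omega

end

theorem eventually_of_step (A : Set ℕ) (D N0 : ℕ) (hD : 0 < D)
    (hA : ∀ n, N0 ≤ n → n ∈ A → n + D ∈ A) :
    ∃ N, ∀ n, N ≤ n → (n + D ∈ A ↔ n ∈ A) := by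
  have hstep : ∀ m, N0 ≤ m → m ∈ A → ∀ j : ℕ, m + D * j ∈ A := by
    intro m hm hmA j
    induction j with
    | zero => simpa using hmA
    | succ j ih =>
      have := hA (m + D * j) (by omega) ih
      have e : m + D * (j + 1) = m + D * j + D := by ring
      rwa [e]
  have hchoose : ∀ r : Fin D, ∃ M, ∀ n, M ≤ n → n % D = r.1 →
      (∃ m, N0 ≤ m ∧ m % D = r.1 ∧ m ∈ A) → n ∈ A := by
    intro r
    by_cases hex : ∃ m, N0 ≤ m ∧ m % D = r.1 ∧ m ∈ A
    · obtain ⟨m, hm1, hm2, hm3⟩ := hex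
      refine ⟨m, fun n hn hnr _ => ?_⟩
      have hdvd : D ∣ n - m := (Nat.modEq_iff_dvd' hn).mp (by rw [Nat.ModEq, hm2, hnr])
      obtain ⟨j, hj⟩ := hdvd
      have : n = m + D * j := by omega
      rw [this]; exact hstep m hm1 hm3 j
    · exact ⟨0, fun n _ _ h => absurd h hex⟩
  choose M hM using hchoose
  refine ⟨N0 + ∑ r, M r, fun n hn => ⟨fun h => ?_, fun h => hA n (by omega) h⟩⟩
  set r : Fin D := ⟨n % D, Nat.mod_lt _ hD⟩ with hr
  have hMr : M r ≤ ∑ r, M r := Finset.single_le_sum (fun _ _ => Nat.zero_le _) (Finset.mem_univ r)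
  exact hM r n (by omega) rfl ⟨n + D, by omega, by simp [hr], h⟩

/-- abstract form of the main statement -/
theorem eventually_periodic (F : Type) [NormedDivisionRing F] [InnerProductSpace ℝ F]
    [IsScalarTower ℝ F F] [SMulCommClass ℝ F F] [FiniteDimensional ℝ F] (k : ℕ) (hk : 0 < k) :
    ∃ D, 0 < D ∧ ∃ N, ∀ n, N ≤ n → sizes F (n + D) (2 * (n + D) + k) = sizes F n (2 * n + k) := by
  have hF : 0 < finrank ℝ F := finrank_pos
  have hm : 0 < finrank ℝ F * k := Nat.mul_pos hF hk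
  obtain ⟨B, hB⟩ : ∃ B, ∀ n, ∀ p ∈ sizes F n (2 * n + k), p ≤ B := by
    set q := 4 * Nat.log 2 (finrank ℝ F * k) + 9 with hq
    refine ⟨max q ((finrank ℝ F * k * (q * (q - 1)) / 2) ^ 2), fun n p hp => ?_⟩
    obtain ⟨lam, V, h⟩ := hp
    exact h.card_bound rfl hk (q := q) (fun m hm' => pow_gt hm m hm')
  refine ⟨2 ^ B, by positivity, ?_⟩
  set N0 := finrank ℝ F * k * (B * B) with hN0
  have hstep : ∀ p, 2 ≤ p → p ≤ B → ∀ n, N0 ≤ n → p ∈ sizes F n (2 * n + k) →
      p ∈ sizes F (n + 2 ^ B) (2 * (n + 2 ^ B) + k) := by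
    intro p hp2 hpB n hn hp
    apply sizes_step hp2 hpB _ hp
    have h1 : p * (p - 1) ≤ B * B := Nat.mul_le_mul hpB ((Nat.sub_le _ _).trans hpB)
    have h2 : finrank ℝ F * k * (p * (p - 1)) ≤ N0 := Nat.mul_le_mul_left _ h1
    have h3 : n ≤ finrank ℝ F * n := Nat.le_mul_of_pos_left _ hF
    have h4 : 2 * (finrank ℝ F * (2 * n + k)) = 4 * (finrank ℝ F * n) + 2 * (finrank ℝ F * k) := by
      ring
    rw [h4]; omega
  have hper : ∀ p : Fin (B + 1), ∃ N, ∀ n, N ≤ n →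
      (p.1 ∈ sizes F (n + 2 ^ B) (2 * (n + 2 ^ B) + k) ↔ p.1 ∈ sizes F n (2 * n + k)) := by
    intro p
    by_cases hp2 : 2 ≤ p.1
    · exact eventually_of_step {n | p.1 ∈ sizes F n (2 * n + k)} (2 ^ B) N0 (by positivity)
        (fun n hn hnA => hstep p.1 hp2 (by omega) n hn hnA)
    · push Not at hp2
      exact ⟨0, fun n _ => iff_of_false (sizes_zero_one hk hp2) (sizes_zero_one hk hp2)⟩
  choose M hM using hper
  refine ⟨∑ p, M p, fun n hn => ?_⟩
  ext p
  by_cases hpB : p ≤ B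
  · have hMr : M ⟨p, by omega⟩ ≤ ∑ r, M r :=
      Finset.single_le_sum (fun _ _ => Nat.zero_le _) (Finset.mem_univ _)
    exact hM ⟨p, by omega⟩ n (hMr.trans hn)
  · exact iff_of_false (fun h => hpB (hB _ _ h)) (fun h => hpB (hB _ _ h))

end Pool.Agent.H32Iso
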