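import Mathlib

set_option autoImplicit false

/-! Real Clifford matrices and simplices of involutions. -/

namespace Pool.Agent.H32Iso

open Matrix

/-- a Clifford family of `m` anticommuting real symmetric involutions on `σ` -/
def Good (σ : Type) [Fintype σ] [DecidableEq σ] (m : ℕ) : Prop :=
  ∃ E : Fin m → Matrix σ σ ℝ, (∀ i, (E i)ᵀ = E i) ∧ (∀ i, E i * E i = 1) ∧
    ∀ i j, i ≠ j → E i * E j = - (E j * E i)

theorem good_zero : Good (Fin 1) 0 :=
  ⟨fun i => i.elim0, fun i => i.elim0, fun i => i.elim0, fun i => i.elim0⟩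

theorem good_succ {σ : Type} [Fintype σ] [DecidableEq σ] {m : ℕ} (h : Good σ m) :
    Good (σ ⊕ σ) (m + 1) := by
  obtain ⟨E, h1, h2, h3⟩ := h
  refine ⟨Fin.lastCases (Matrix.fromBlocks 0 1 1 0) (fun i => Matrix.fromBlocks (E i) 0 0 (-E i)),
    ?_, ?_, ?_⟩
  · intro i
    refine Fin.lastCases ?_ (fun i => ?_) i
    · simp [Matrix.fromBlocks_transpose]
    · simp [Matrix.fromBlocks_transpose, h1]
  · intro i
    refine Fin.lastCases ?_ (fun i => ?_) i
    · simp [Matrix.fromBlocks_multiply]
    · simp [Matrix.fromBlocks_multiply, h2]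
  · intro i j
    refine Fin.lastCases ?_ (fun i => ?_) i
    · refine Fin.lastCases ?_ (fun j => ?_) j
      · intro h; exact absurd rfl h
      · intro _; simp [Matrix.fromBlocks_multiply, Matrix.fromBlocks_neg]
    · refine Fin.lastCases ?_ (fun j => ?_) j
      · intro _; simp [Matrix.fromBlocks_multiply, Matrix.fromBlocks_neg]
      · intro hij
        have hij' : i ≠ j := fun h => hij (by rw [h])
        simp [Matrix.fromBlocks_multiply, Matrix.fromBlocks_neg, h3 i j hij']

theorem good_reindex {σ τ : Type} [Fintype σ] [DecidableEq σ] [Fintype τ] [DecidableEq τ] {m : ℕ}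
    (e : σ ≃ τ) (h : Good σ m) : Good τ m := by
  obtain ⟨E, h1, h2, h3⟩ := h
  refine ⟨fun i => Matrix.reindexAlgEquiv ℝ ℝ e (E i), ?_, ?_, ?_⟩
  · intro i
    simp [Matrix.coe_reindexAlgEquiv, Matrix.reindex_apply, Matrix.transpose_submatrix, h1]
  · intro i
    rw [← map_mul, h2, map_one]
  · intro i j hij
    rw [← map_mul, h3 i j hij, map_neg, map_mul]

theorem good_pow (m : ℕ) : Good (Fin (2 ^ m)) m := by
  induction m with
  | zero => simpa using good_zero
  | succ m ih =>
    exact good_reindex (finSumFinEquiv.trans (finCongr (by ring))) (good_succ ih)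

/-- Simplex of involutions with prescribed anticommutator `2 t`, together with an involution
anticommuting with all of them. -/
theorem exists_simplex (p B : ℕ) (hp : p ≤ B) (t : ℝ) (ht1 : t < 1) (ht0 : 0 ≤ 1 + ((p:ℝ) - 1) * t) :
    ∃ (Z : Fin p → Matrix (Fin (2 ^ (B + 1))) (Fin (2 ^ (B + 1))) ℝ)
      (T : Matrix (Fin (2 ^ (B + 1))) (Fin (2 ^ (B + 1))) ℝ),
      (∀ i, (Z i)ᵀ = Z i) ∧ (∀ i, Z i * Z i = 1) ∧
      (∀ i j, i ≠ j → Z i * Z j + Z j * Z i = (2 * t) • (1 : Matrix _ _ ℝ)) ∧
      T * T = 1 ∧ ∀ i, T * Z i = - (Z i * T) := by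
  rcases Nat.eq_zero_or_pos p with h0 | hp0
  · subst h0
    exact ⟨fun i => i.elim0, 1, fun i => i.elim0, fun i => i.elim0, fun i => i.elim0, one_mul 1,
      fun i => i.elim0⟩
  obtain ⟨E, h1, h2, h3⟩ := good_pow (B + 1)
  set f : Fin p → Fin (B + 1) := fun i => Fin.castLE (by omega) i with hf
  have hfinj : ∀ i j, i ≠ j → f i ≠ f j := by
    intro i j hij h; apply hij; simpa [hf, Fin.ext_iff] using h
  have hflast : ∀ i, f i ≠ Fin.last B := by
    intro i h; have := congrArg Fin.val h; simp [hf] at this; omega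
  set S : Matrix (Fin (2 ^ (B + 1))) (Fin (2 ^ (B + 1))) ℝ := ∑ a : Fin p, E (f a) with hS
  set α : ℝ := Real.sqrt (1 - t) with hα
  set γ : ℝ := Real.sqrt (1 + ((p:ℝ) - 1) * t) with hγ
  set β : ℝ := (γ - α) / p with hβ
  have hα2 : α * α = 1 - t := Real.mul_self_sqrt (by linarith)
  have hγ2 : γ * γ = 1 + ((p:ℝ) - 1) * t := Real.mul_self_sqrt ht0
  have hpne : (p:ℝ) ≠ 0 := by positivity
  have hpβ : (p:ℝ) * β = γ - α := by rw [hβ]; field_simp
  have hrel : 2 * α * β + p * β * β = t := by
    have : (p:ℝ) * (2 * α * β + p * β * β) = p * t := by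
      have e1 : (p:ℝ) * (2 * α * β + p * β * β) = 2 * α * (p * β) + (p * β) * (p * β) := by ring
      rw [e1, hpβ]
      linear_combination hγ2 - hα2
    exact mul_left_cancel₀ hpne this
  have hES : ∀ i, E (f i) * S + S * E (f i) = (2:ℝ) • (1 : Matrix _ _ ℝ) := by
    intro i
    rw [hS, Finset.mul_sum, Finset.sum_mul, ← Finset.sum_add_distrib]
    rw [Finset.sum_eq_single i]
    · rw [h2]; module
    · intro b _ hb
      rw [h3 (f i) (f b) (hfinj i b (Ne.symm hb))]; simp
    · intro h; exact absurd (Finset.mem_univ i) h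
  have hSS : S * S = (p:ℝ) • (1 : Matrix _ _ ℝ) := by
    have h4' : S * S + S * S = ∑ a : Fin p, (E (f a) * S + S * E (f a)) := by
      rw [Finset.sum_add_distrib, ← Finset.sum_mul, ← Finset.mul_sum]
    have h4 : S * S + S * S = (2:ℝ) • ((p:ℝ) • (1 : Matrix _ _ ℝ)) := by
      rw [h4']
      simp_rw [hES]
      rw [Finset.sum_const, Finset.card_univ, Fintype.card_fin, ← Nat.cast_smul_eq_nsmul ℝ]
      rw [smul_smul, smul_smul, mul_comm]
    have h5 : (2:ℝ) • (S * S) = (2:ℝ) • ((p:ℝ) • (1 : Matrix _ _ ℝ)) := by rw [← h4, two_smul]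
    exact smul_right_injective _ (two_ne_zero) h5
  refine ⟨fun i => α • E (f i) + β • S, E (Fin.last B), ?_, ?_, ?_, h2 _, ?_⟩
  · intro i
    rw [Matrix.transpose_add, Matrix.transpose_smul, Matrix.transpose_smul, h1, hS,
      Matrix.transpose_sum]
    simp_rw [h1]
  · intro i
    have e1 : (α • E (f i) + β • S) * (α • E (f i) + β • S) =
        (α * α) • (E (f i) * E (f i)) + (α * β) • (E (f i) * S + S * E (f i)) +
        (β * β) • (S * S) := by
      simp only [add_mul, mul_add, smul_mul_assoc, mul_smul_comm, smul_smul, smul_add]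
      rw [mul_comm β α]; abel
    rw [e1, h2, hES, hSS, smul_smul, smul_smul, ← add_smul, ← add_smul]
    have e2 : α * α + α * β * 2 + β * β * p = 1 := by linear_combination hα2 + hrel
    rw [e2, one_smul]
  · intro i j hij
    have e1 : (α • E (f i) + β • S) * (α • E (f j) + β • S) +
        (α • E (f j) + β • S) * (α • E (f i) + β • S) =
        (α * α) • (E (f i) * E (f j) + E (f j) * E (f i)) +
        (α * β) • (E (f i) * S + S * E (f i)) + (α * β) • (E (f j) * S + S * E (f j)) +
        (2 * (β * β)) • (S * S) := by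
      simp only [add_mul, mul_add, smul_mul_assoc, mul_smul_comm, smul_smul, smul_add]
      module
    rw [e1, hES, hES, hSS, h3 (f i) (f j) (hfinj i j hij), neg_add_cancel, smul_zero, zero_add,
      smul_smul, smul_smul, ← add_smul, ← add_smul]
    congr 1
    linear_combination 2 * hrel
  · intro i
    rw [mul_add, add_mul, mul_smul_comm, smul_mul_assoc, mul_smul_comm, smul_mul_assoc, hS,
      Finset.mul_sum, Finset.sum_mul, h3 _ _ (Ne.symm (hflast i))]
    have : ∀ a, E (Fin.last B) * E (f a) = - (E (f a) * E (Fin.last B)) :=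
      fun a => h3 _ _ (Ne.symm (hflast a))
    simp_rw [this]
    rw [Finset.sum_neg_distrib, smul_neg, smul_neg, neg_add]

end Pool.Agent.H32Iso
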