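import Mathlib

set_option autoImplicit false

/-! Dimension bounds for anticommuting operators. -/

namespace Pool.Agent.H32Iso

open Module

section General

variable {K : Type*} [Field K]

/-- splitting: if `e` has `e² = c ≠ 0` with eigenvalue `μ`, and `f` is injective and
anticommutes with `e`, then `2 * dim (eigenspace μ) ≤ dim`. -/
theorem two_mul_finrank_le {M : Type*} [AddCommGroup M] [Module K M] [FiniteDimensional K M]
    (e f : M →ₗ[K] M) (μ : K) (hμ : μ + μ ≠ 0)
    (hf : Function.Injective f) (hanti : ∀ x, e (f x) = - f (e x)) :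
    2 * finrank K (LinearMap.ker (e - μ • LinearMap.id)) ≤ finrank K M := by
  set A := LinearMap.ker (e - μ • LinearMap.id) with hA
  set B := A.map f with hB
  have hfin : finrank K B = finrank K A := (LinearEquiv.finrank_eq (Submodule.equivMapOfInjective f hf A)).symm
  have hdisj : A ⊓ B = ⊥ := by
    rw [eq_bot_iff]
    rintro x ⟨hx1, hx2⟩
    obtain ⟨y, hy, rfl⟩ := hx2
    have h1 : e (f y) = μ • f y := by
      have := hx1
      simp only [hA, SetLike.mem_coe, LinearMap.mem_ker, LinearMap.sub_apply,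
        LinearMap.smul_apply, LinearMap.id_apply, sub_eq_zero] at this
      exact this
    have h2 : e y = μ • y := by
      have := hy
      simp only [hA, SetLike.mem_coe, LinearMap.mem_ker, LinearMap.sub_apply,
        LinearMap.smul_apply, LinearMap.id_apply, sub_eq_zero] at this
      exact this
    rw [hanti, h2, map_smul] at h1
    have h3 : (μ + μ) • f y = 0 := by
      rw [add_smul]; nth_rewrite 1 [← h1]; simp
    rw [Submodule.mem_bot]
    exact (smul_eq_zero.mp h3).resolve_left hμ
  have := Submodule.finrank_sup_add_finrank_inf_eq A B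
  rw [hdisj, finrank_bot, add_zero, hfin] at this
  rw [two_mul, ← this]
  exact Submodule.finrank_le _

theorem clifford_bound_algClosed [IsAlgClosed K] [CharZero K] (m : ℕ) :
    ∀ (M : Type _) [AddCommGroup M] [Module K M] [FiniteDimensional K M] [Nontrivial M]
    (e : Fin m → M →ₗ[K] M) (c : Fin m → K), (∀ i, c i ≠ 0) →
    (∀ i x, e i (e i x) = c i • x) →
    (∀ i j, i ≠ j → ∀ x, e i (e j x) = - e j (e i x)) → 2 ^ (m / 2) ≤ finrank K M := by
  induction m using Nat.strong_induction_on with
  | _ m ih =>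
  intro M _ _ _ _ e c hc hsq hanti
  by_cases hm : m < 2
  · have : m / 2 = 0 := by omega
    rw [this, pow_zero]
    exact finrank_pos
  push Not at hm
  obtain ⟨n, rfl⟩ : ∃ n, m = n + 2 := ⟨m - 2, by omega⟩
  -- eigenvalue of e 0
  obtain ⟨μ, hμ⟩ := IsAlgClosed.exists_pow_nat_eq (c 0) (n := 2) (by norm_num)
  have hμ0 : μ ≠ 0 := by
    intro h0; rw [h0] at hμ; apply hc 0; rw [← hμ]; simp
  set e0 := e 0 with he0
  have hinj : ∀ i, Function.Injective (e i) := by
    intro i
    rw [← LinearMap.ker_eq_bot, eq_bot_iff]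
    intro x hx
    have := hsq i x
    rw [LinearMap.mem_ker.mp hx, map_zero] at this
    exact (smul_eq_zero.mp this.symm).resolve_left (hc i)
  set A := LinearMap.ker (e0 - μ • LinearMap.id) with hA
  have hmemA : ∀ x, x ∈ A ↔ e0 x = μ • x := by
    intro x
    simp only [hA, LinearMap.mem_ker, LinearMap.sub_apply,
        LinearMap.smul_apply, LinearMap.id_apply, sub_eq_zero]
  have h01 : (0 : Fin (n+2)) ≠ 1 := by simp
  have hAne : A ≠ ⊥ := by
    intro hbot
    -- then e0 x = - μ x for all x
    have hall : ∀ x, e0 x = - μ • x := by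
      intro x
      have : e0 x + μ • x ∈ A := by
        rw [hmemA, map_add, map_smul, he0, hsq 0, ← hμ]
        module
      rw [hbot, Submodule.mem_bot] at this
      rw [neg_smul]; exact eq_neg_of_add_eq_zero_left this
    obtain ⟨x, hx⟩ := exists_ne (0 : M)
    have h1 := hanti 0 1 h01 x
    rw [← he0, hall, hall, map_smul] at h1
    have h2 : (μ + μ) • e 1 x = 0 := by
      have : - μ • e 1 x = μ • e 1 x := by rw [h1]; module
      rw [add_smul]; nth_rewrite 1 [← this]; module
    have hμμ : μ + μ ≠ 0 := by rw [← two_mul]; exact mul_ne_zero two_ne_zero hμ0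
    have h3 := (smul_eq_zero.mp h2).resolve_left hμμ
    exact hx (hinj 1 (by rw [h3, map_zero]))
  have hμμ : μ + μ ≠ 0 := by rw [← two_mul]; exact mul_ne_zero two_ne_zero hμ0
  have hdim := two_mul_finrank_le e0 (e 1) μ hμμ (hinj 1) (hanti 0 1 h01)
  -- operators on A
  have hfA : ∀ j : Fin n, ∀ x ∈ A, (e 1 ∘ₗ e j.succ.succ) x ∈ A := by
    intro j x hx
    rw [hmemA] at hx ⊢
    rw [LinearMap.comp_apply, he0, hanti 0 1 h01, hanti 0 j.succ.succ (by simp [Fin.ext_iff]),
      map_neg, neg_neg, ← he0, hx, map_smul, map_smul]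
  have : Nontrivial A := Submodule.nontrivial_iff_ne_bot.mpr hAne
  have h1j : ∀ j : Fin n, (1 : Fin (n+2)) ≠ j.succ.succ := by
    intro j; simp [Fin.ext_iff]
  have key := ih n (by omega) A (fun j => (e 1 ∘ₗ e j.succ.succ).restrict (hfA j))
    (fun j => - (c 1 * c j.succ.succ))
    (fun j => neg_ne_zero.mpr (mul_ne_zero (hc _) (hc _)))
    (by
      intro j x
      apply Subtype.ext
      simp only [LinearMap.coe_restrict_apply, LinearMap.comp_apply, SetLike.val_smul]
      rw [hanti _ 1 (h1j j).symm, map_neg, hsq, hsq]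
      module)
    (by
      intro i j hij x
      apply Subtype.ext
      simp only [LinearMap.coe_restrict_apply, LinearMap.comp_apply, NegMemClass.coe_neg]
      rw [hanti _ 1 (h1j i).symm, hanti _ 1 (h1j j).symm, map_neg, map_neg, hsq, hsq,
        hanti i.succ.succ j.succ.succ (by simpa [Fin.ext_iff] using fun h => hij (Fin.ext h))]
      module)
  have : (n + 2) / 2 = n / 2 + 1 := by omega
  rw [this, pow_succ, mul_comm]
  calc 2 * 2 ^ (n / 2) ≤ 2 * finrank K A := by gcongr
    _ ≤ finrank K M := hdim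

/-- `m` pairwise anticommuting operators with non-zero scalar squares on a non-zero real space
force dimension at least `2 ^ (m / 2)`. -/
theorem clifford_bound_real (m : ℕ) (M : Type*) [AddCommGroup M] [Module ℝ M]
    [FiniteDimensional ℝ M] [Nontrivial M]
    (e : Fin m → M →ₗ[ℝ] M) (c : Fin m → ℝ) (hc : ∀ i, c i ≠ 0)
    (hsq : ∀ i x, e i (e i x) = c i • x)
    (hanti : ∀ i j, i ≠ j → ∀ x, e i (e j x) = - e j (e i x)) : 2 ^ (m / 2) ≤ finrank ℝ M := by
  rw [← Module.finrank_baseChange (R := ℂ) (S := ℝ) (M' := M)]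
  have : Nontrivial (TensorProduct ℝ ℂ M) := by
    rw [← Module.finrank_pos_iff (R := ℂ), Module.finrank_baseChange]
    exact finrank_pos
  apply clifford_bound_algClosed m (TensorProduct ℝ ℂ M) (fun i => (e i).baseChange ℂ)
    (fun i => (c i : ℂ))
  · intro i; exact_mod_cast hc i
  · intro i x
    have h1 : (e i) ∘ₗ (e i) = c i • LinearMap.id := by
      ext x; simp [hsq]
    have h2 := congrArg (LinearMap.baseChange ℂ) h1
    rw [LinearMap.baseChange_comp, LinearMap.baseChange_smul, LinearMap.baseChange_id] at h2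
    have h3 := LinearMap.congr_fun h2 x
    have h4 : ((c i : ℂ)) • x = c i • x := algebraMap_smul ℂ (c i) x
    rw [h4]
    exact h3
  · intro i j hij x
    have h1 : (e i) ∘ₗ (e j) = - ((e j) ∘ₗ (e i)) := by
      ext x; simp [hanti i j hij]
    have h2 := congrArg (LinearMap.baseChange ℂ) h1
    rw [LinearMap.baseChange_comp, LinearMap.baseChange_neg, LinearMap.baseChange_comp] at h2
    have h3 := LinearMap.congr_fun h2 x
    simpa using h3

end General

section Simplex

variable {M : Type*} [AddCommGroup M] [Module ℝ M] {κ : Type*} [Fintype κ] [DecidableEq κ]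

/-- linear combination of operators -/
def L (Z : κ → M →ₗ[ℝ] M) (a : κ → ℝ) : M →ₗ[ℝ] M := ∑ i, a i • Z i

omit [DecidableEq κ] in
theorem L_apply (Z : κ → M →ₗ[ℝ] M) (a : κ → ℝ) (x : M) : L Z a x = ∑ i, a i • Z i x := by
  simp [L]

theorem L_anti (Z : κ → M →ₗ[ℝ] M) (t : ℝ) (hsq : ∀ i x, Z i (Z i x) = x)
    (hanti : ∀ i j, i ≠ j → ∀ x, Z i (Z j x) + Z j (Z i x) = (2 * t) • x)
    (a b : κ → ℝ) (x : M) :
    L Z a (L Z b x) + L Z b (L Z a x) =
      (2 * t * (∑ i, a i) * (∑ i, b i) + (2 - 2 * t) * ∑ i, a i * b i) • x := by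
  have hgen : ∀ i j x, Z i (Z j x) + Z j (Z i x) =
      (2 * t + if i = j then 2 - 2 * t else 0) • x := by
    intro i j x
    by_cases hij : i = j
    · subst hij; simp only [hsq, if_true]; module
    · simp only [hanti i j hij, if_neg hij, add_zero]
  have h1 : L Z a (L Z b x) = ∑ i, ∑ j, (a i * b j) • Z i (Z j x) := by
    simp only [L_apply, map_sum, map_smul, Finset.smul_sum, smul_smul]
    rw [Finset.sum_comm]
    refine Finset.sum_congr rfl fun i _ => Finset.sum_congr rfl fun j _ => ?_
    rw [mul_comm]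
  have h2 : L Z b (L Z a x) = ∑ i, ∑ j, (a i * b j) • Z j (Z i x) := by
    simp only [L_apply, map_sum, map_smul, Finset.smul_sum, smul_smul]
  rw [h1, h2, ← Finset.sum_add_distrib]
  simp_rw [← Finset.sum_add_distrib, ← smul_add, hgen, smul_smul, ← Finset.sum_smul]
  congr 1
  simp_rw [mul_add, Finset.sum_add_distrib, mul_ite, mul_zero, Finset.sum_ite_eq, Finset.mem_univ,
    if_true]
  congr 1
  · simp_rw [← Finset.sum_mul, ← Finset.mul_sum]
    rw [← Finset.sum_mul]; ring
  · rw [← Finset.sum_mul]; ring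

theorem simplex_bound [FiniteDimensional ℝ M] [Nontrivial M]
    (Z : κ → M →ₗ[ℝ] M) (t : ℝ) (ht : t ≠ 1) (hsq : ∀ i x, Z i (Z i x) = x)
    (hanti : ∀ i j, i ≠ j → ∀ x, Z i (Z j x) + Z j (Z i x) = (2 * t) • x) :
    2 ^ ((Fintype.card κ - 1) / 2) ≤ finrank ℝ M := by
  set one : EuclideanSpace ℝ κ := WithLp.toLp 2 (fun _ => 1) with hone
  set S : Submodule ℝ (EuclideanSpace ℝ κ) := (ℝ ∙ one)ᗮ with hS
  have hrank : Fintype.card κ - 1 ≤ finrank ℝ S := by
    have h1 := Submodule.finrank_add_finrank_orthogonal (𝕜 := ℝ) (ℝ ∙ one)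
    have h2 : finrank ℝ (ℝ ∙ one) ≤ 1 := finrank_span_le_card {one} |>.trans (by simp)
    rw [finrank_euclideanSpace, ← hS] at h1
    omega
  set b := stdOrthonormalBasis ℝ S
  have hsum : ∀ v : S, ∑ i, (v : EuclideanSpace ℝ κ) i = 0 := by
    intro v
    have hv : (v : EuclideanSpace ℝ κ) ∈ (ℝ ∙ one)ᗮ := v.2
    rw [Submodule.mem_orthogonal_singleton_iff_inner_right] at hv
    rw [hone, EuclideanSpace.inner_eq_star_dotProduct] at hv
    simpa [dotProduct] using hv
  have hinner : ∀ m n, ∑ i, (b m : EuclideanSpace ℝ κ) i * (b n : EuclideanSpace ℝ κ) i =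
      if m = n then 1 else 0 := by
    intro m n
    have := orthonormal_iff_ite.mp b.orthonormal n m
    rw [Submodule.coe_inner, EuclideanSpace.inner_eq_star_dotProduct] at this
    simp only [dotProduct, star_trivial, Pi.star_apply] at this
    rw [this]
    simp [eq_comm]
  have key := clifford_bound_real (finrank ℝ S) M (fun m => L Z (fun i => (b m : EuclideanSpace ℝ κ) i))
    (fun _ => 1 - t) (fun _ => sub_ne_zero.mpr (Ne.symm ht))
    (by
      intro m x
      have := L_anti Z t hsq hanti (fun i => (b m : EuclideanSpace ℝ κ) i)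
        (fun i => (b m : EuclideanSpace ℝ κ) i) x
      rw [hsum, hinner, if_pos rfl] at this
      have h2 : (2:ℝ) • (L Z (fun i => (b m : EuclideanSpace ℝ κ) i))
          ((L Z (fun i => (b m : EuclideanSpace ℝ κ) i)) x) = (2:ℝ) • ((1 - t) • x) := by
        rw [two_smul, this]; module
      exact smul_right_injective M (two_ne_zero) h2)
    (by
      intro m n hmn x
      have := L_anti Z t hsq hanti (fun i => (b m : EuclideanSpace ℝ κ) i)
        (fun i => (b n : EuclideanSpace ℝ κ) i) x
      rw [hsum, hinner, if_neg hmn] at this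
      simp only [mul_zero, zero_mul, add_zero, zero_smul] at this
      exact eq_neg_of_add_eq_zero_left this)
  refine le_trans ?_ key
  exact Nat.pow_le_pow_right (by norm_num) (Nat.div_le_div_right hrank)

end Simplex

end Pool.Agent.H32Iso
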