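import Pool.Agent.H32Iso.Basic
import Pool.Agent.H32Iso.Clifford

set_option autoImplicit false

/-! The uniform bound for real configurations of small codimension. -/

namespace Pool.Agent.H32Iso

open Module

section Dim

variable {W : Type*} [AddCommGroup W] [Module ℝ W] [FiniteDimensional ℝ W]

theorem finrank_le_inf_add (A B : Submodule ℝ W) (k : ℕ) (hB : finrank ℝ W ≤ finrank ℝ B + k) :
    finrank ℝ A ≤ finrank ℝ (A ⊓ B : Submodule ℝ W) + k := by
  have h1 := Submodule.finrank_sup_add_finrank_inf_eq A B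
  have h2 := Submodule.finrank_le (A ⊔ B)
  omega

theorem finrank_le_inf_finset {ι : Type*} [DecidableEq ι] (A : Submodule ℝ W)
    (B : ι → Submodule ℝ W) (k : ℕ) (T : Finset ι)
    (hB : ∀ i ∈ T, finrank ℝ W ≤ finrank ℝ (B i) + k) :
    finrank ℝ A ≤ finrank ℝ (A ⊓ T.inf B : Submodule ℝ W) + T.card * k := by
  induction T using Finset.induction_on with
  | empty => rw [Finset.inf_empty, inf_top_eq]; simp
  | insert a s ha ih =>
    have h1 := ih (fun i hi => hB i (Finset.mem_insert_of_mem hi))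
    have h2 := finrank_le_inf_add (A ⊓ s.inf B) (B a) k (hB a (Finset.mem_insert_self _ _))
    rw [Finset.inf_insert, Finset.card_insert_of_notMem ha]
    have h3 : A ⊓ s.inf B ⊓ B a = A ⊓ (B a ⊓ s.inf B) := by
      rw [inf_assoc, inf_comm (s.inf B)]
    rw [h3] at h2
    calc finrank ℝ A ≤ _ := h1
      _ ≤ _ := by rw [add_mul, one_mul]; omega

end Dim

variable {W : Type*} [NormedAddCommGroup W] [InnerProductSpace ℝ W] [FiniteDimensional ℝ W]
  {ι : Type*} [DecidableEq ι]

variable {lam : ℝ} {P : ι → W →ₗ[ℝ] W}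

omit [FiniteDimensional ℝ W] [DecidableEq ι] in
theorem Cfg.mem_range_iff (h : Cfg lam P) (i : ι) (x : W) :
    x ∈ LinearMap.range (P i) ↔ P i x = x := by
  constructor
  · rintro ⟨y, rfl⟩; exact h.idem i y
  · intro hx; exact ⟨x, hx⟩

omit [FiniteDimensional ℝ W] [DecidableEq ι] in
theorem Cfg.range_inf (h : Cfg lam P) (hlam : lam ≠ 1) {i j : ι} (hij : i ≠ j) :
    LinearMap.range (P i) ⊓ LinearMap.range (P j) = ⊥ := by
  rw [eq_bot_iff]
  rintro x ⟨h1, h2⟩
  rw [SetLike.mem_coe, h.mem_range_iff] at h1 h2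
  have h3 := h.iso i j hij x
  rw [h1, h2, h1] at h3
  have h4 : (1 - lam) • x = 0 := by rw [sub_smul, one_smul, ← h3, sub_self]
  exact (smul_eq_zero.mp h4).resolve_left (sub_ne_zero.mpr (Ne.symm hlam))

omit [DecidableEq ι] in
theorem Cfg.finrank_sup (h : Cfg lam P) (hlam : lam ≠ 1) {N : ℕ}
    (hN : ∀ i, finrank ℝ (LinearMap.range (P i)) = N) {i j : ι} (hij : i ≠ j) :
    finrank ℝ (LinearMap.range (P i) ⊔ LinearMap.range (P j) : Submodule ℝ W) = 2 * N := by
  have h1 := Submodule.finrank_sup_add_finrank_inf_eq (LinearMap.range (P i)) (LinearMap.range (P j))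
  rw [h.range_inf hlam hij, finrank_bot, hN, hN] at h1
  omega

omit [FiniteDimensional ℝ W] [DecidableEq ι] in
theorem Cfg.sup_le_ker (h : Cfg lam P) {i j : ι} (hij : i ≠ j) :
    LinearMap.range (P i) ⊔ LinearMap.range (P j) ≤ LinearMap.ker (R lam P i j) := by
  apply sup_le
  · rintro _ ⟨y, rfl⟩; exact h.R_P_left hij y
  · rintro _ ⟨y, rfl⟩; exact h.R_P_right hij y

omit [DecidableEq ι] in
theorem Cfg.finrank_ker_ge (h : Cfg lam P) (hlam : lam ≠ 1) {N : ℕ}
    (hN : ∀ i, finrank ℝ (LinearMap.range (P i)) = N) {i j : ι} (hij : i ≠ j) :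
    2 * N ≤ finrank ℝ (LinearMap.ker (R lam P i j)) := by
  rw [← h.finrank_sup hlam hN hij]
  exact Submodule.finrank_mono (h.sup_le_ker hij)

omit [FiniteDimensional ℝ W] in
theorem K_insert_ge (J : Finset ι) (x : ι) :
    K lam P J ⊓ J.inf (fun i => LinearMap.ker (R lam P i x)) ≤ K lam P (insert x J) := by
  rintro v ⟨hv1, hv2⟩ i hi j hj hij
  have hv3 : ∀ i ∈ J, R lam P i x v = 0 := by
    intro i hi
    have : J.inf (fun i => LinearMap.ker (R lam P i x)) ≤ LinearMap.ker (R lam P i x) :=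
      Finset.inf_le hi
    exact this hv2
  rw [Finset.mem_insert] at hi hj
  rcases hi with rfl | hi
  · rcases hj with rfl | hj
    · exact absurd rfl hij
    · rw [R_comm]; exact hv3 j hj
  · rcases hj with rfl | hj
    · exact hv3 i hi
    · exact hv1 i hi j hj hij

theorem Cfg.finrank_K_insert (h : Cfg lam P) (hlam : lam ≠ 1) {N k : ℕ}
    (hN : ∀ i, finrank ℝ (LinearMap.range (P i)) = N) (hW : finrank ℝ W = 2 * N + k)
    (J : Finset ι) (x : ι) (hx : x ∉ J) :
    finrank ℝ (K lam P J) ≤ finrank ℝ (K lam P (insert x J)) + J.card * k := by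
  have h1 := finrank_le_inf_finset (K lam P J) (fun i => LinearMap.ker (R lam P i x)) k J
    (by
      intro i hi
      have hix : i ≠ x := fun h => hx (h ▸ hi)
      have := h.finrank_ker_ge hlam hN hix
      omega)
  have h2 := Submodule.finrank_mono (K_insert_ge (lam := lam) (P := P) J x)
  omega

/-- the invariant gap subspace -/
theorem Cfg.gap_clifford (h : Cfg lam P) (hlam : lam ≠ 1) (J : Finset ι) (G : Submodule ℝ W)
    (hG : G ≤ K lam P J) (hinv : ∀ l ∈ J, ∀ x ∈ G, P l x ∈ G) (hne : G ≠ ⊥) :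
    2 ^ ((J.card - 1) / 2) ≤ finrank ℝ G := by
  have : Nontrivial G := Submodule.nontrivial_iff_ne_bot.mpr hne
  have hZ : ∀ l : J, ∀ x ∈ G, ((2:ℝ) • P l.1 - LinearMap.id : W →ₗ[ℝ] W) x ∈ G := by
    intro l x hx
    rw [LinearMap.sub_apply, LinearMap.smul_apply, LinearMap.id_apply]
    exact G.sub_mem (G.smul_mem _ (hinv l.1 l.2 x hx)) hx
  have key := simplex_bound (M := G) (κ := J)
    (fun l => ((2:ℝ) • P l.1 - LinearMap.id : W →ₗ[ℝ] W).restrict (hZ l)) (2 * lam - 1)
    (by intro h1; apply hlam; linarith)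
    (by
      intro l x
      apply Subtype.ext
      simp only [LinearMap.coe_restrict_apply, LinearMap.sub_apply, LinearMap.smul_apply,
        LinearMap.id_apply, map_sub, map_smul, h.idem]
      module)
    (by
      intro i j hij x
      apply Subtype.ext
      have hij' : i.1 ≠ j.1 := fun h => hij (Subtype.ext h)
      have hx := hG x.2 i.1 i.2 j.1 j.2 hij'
      rw [R_apply, sub_eq_zero] at hx
      simp only [Submodule.coe_add, LinearMap.coe_restrict_apply, LinearMap.sub_apply,
        LinearMap.smul_apply, LinearMap.id_apply, map_sub, map_smul, SetLike.val_smul]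
      have h2 : P i.1 (P j.1 x.1) + P j.1 (P i.1 x.1) = P i.1 x.1 + P j.1 x.1 - (1 - lam) • x.1 := by
        rw [hx]; abel
      calc _ = (4:ℝ) • (P i.1 (P j.1 x.1) + P j.1 (P i.1 x.1)) -
          (4:ℝ) • (P i.1 x.1 + P j.1 x.1) + (2:ℝ) • x.1 := by module
        _ = _ := by rw [h2]; module)
  rwa [Fintype.card_coe] at key

/-- Stabilisation of the kernels. -/
theorem Cfg.K_insert_eq (h : Cfg lam P) (hlam : lam ≠ 1) {N k : ℕ}
    (hN : ∀ i, finrank ℝ (LinearMap.range (P i)) = N) (hW : finrank ℝ W = 2 * N + k)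
    (J : Finset ι) (hJ : J.card * k < 2 ^ ((J.card - 1) / 2)) (x : ι) :
    K lam P (insert x J) = K lam P J := by
  by_cases hx : x ∈ J
  · rw [Finset.insert_eq_of_mem hx]
  have hle : K lam P (insert x J) ≤ K lam P J := K_mono (Finset.subset_insert _ _)
  have h1 := h.finrank_K_insert hlam hN hW J x hx
  have h2 := Submodule.finrank_add_inf_finrank_orthogonal hle
  by_contra hne
  have hG : (K lam P (insert x J))ᗮ ⊓ K lam P J ≠ ⊥ := by
    intro hbot
    rw [hbot, finrank_bot, add_zero] at h2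
    exact hne (Submodule.eq_of_le_of_finrank_eq hle h2)
  have h3 := h.gap_clifford hlam J ((K lam P (insert x J))ᗮ ⊓ K lam P J) inf_le_right
    (by
      intro l hl x ⟨hx1, hx2⟩
      exact ⟨h.K_orth_inv hlam (Finset.mem_insert_of_mem hl) hx1, h.K_inv hlam hl hx2⟩) hG
  omega

theorem Cfg.K_superset_eq (h : Cfg lam P) (hlam : lam ≠ 1) {N k q : ℕ}
    (hN : ∀ i, finrank ℝ (LinearMap.range (P i)) = N) (hW : finrank ℝ W = 2 * N + k)
    (hq : ∀ m, q ≤ m → m * k < 2 ^ ((m - 1) / 2))
    (J : Finset ι) (hJ : q ≤ J.card) (T : Finset ι) :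
    K lam P (T ∪ J) = K lam P J := by
  induction T using Finset.induction_on with
  | empty => simp
  | insert a s ha ih =>
    rw [Finset.insert_union, h.K_insert_eq hlam hN hW (s ∪ J) _ a, ih]
    apply hq
    exact hJ.trans (Finset.card_le_card Finset.subset_union_right)

theorem Cfg.finrank_K_ge (h : Cfg lam P) (hlam : lam ≠ 1) {N k : ℕ}
    (hN : ∀ i, finrank ℝ (LinearMap.range (P i)) = N) (hW : finrank ℝ W = 2 * N + k)
    (J : Finset ι) :
    2 * finrank ℝ W ≤ 2 * finrank ℝ (K lam P J) + k * (J.card * (J.card - 1)) := by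
  induction J using Finset.induction_on with
  | empty =>
    have : K lam P (∅ : Finset ι) = ⊤ := by
      rw [eq_top_iff]; intro x _ i hi; simp at hi
    rw [this]; simp
  | insert a s ha ih =>
    have h1 := h.finrank_K_insert hlam hN hW s a ha
    rw [Finset.card_insert_of_notMem ha]
    have h2 : (s.card + 1) * (s.card + 1 - 1) = s.card * (s.card - 1) + 2 * s.card := by
      rcases s.card with _ | m
      · simp
      · simp only [Nat.add_sub_cancel]; ring
    rw [h2, mul_add]
    have h3 : k * (2 * s.card) = 2 * (s.card * k) := by ring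
    rw [h3]; omega

end Pool.Agent.H32Iso
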