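import Pool.Agent.H32Iso.Period

set_option autoImplicit false

/-! Codimension one over the reals. -/

namespace Pool.Agent.H32Iso

open Module

/-- three involutions with common anticommutator `2 t`, `-1/2 < t < 1`, need dimension `≥ 4`. -/
theorem three_involutions {M : Type*} [AddCommGroup M] [Module ℝ M] [FiniteDimensional ℝ M]
    [Nontrivial M] (Z0 Z1 Z2 : M →ₗ[ℝ] M) (t : ℝ) (ht : t < 1) (ht' : -1/2 < t)
    (h0 : ∀ x, Z0 (Z0 x) = x) (h1 : ∀ x, Z1 (Z1 x) = x) (h2 : ∀ x, Z2 (Z2 x) = x)
    (h01 : ∀ x, Z0 (Z1 x) + Z1 (Z0 x) = (2 * t) • x)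
    (h02 : ∀ x, Z0 (Z2 x) + Z2 (Z0 x) = (2 * t) • x)
    (h12 : ∀ x, Z1 (Z2 x) + Z2 (Z1 x) = (2 * t) • x) : 4 ≤ finrank ℝ M := by
  -- e1 = Z1 - t Z0, e2 = (1+t) Z2 - t (Z0 + Z1)
  set e1 : M →ₗ[ℝ] M := Z1 - t • Z0 with he1
  set e2 : M →ₗ[ℝ] M := (1 + t) • Z2 - t • (Z0 + Z1) with he2
  have he1a : ∀ x, e1 x = Z1 x - t • Z0 x := fun x => rfl
  have he2a : ∀ x, e2 x = (1 + t) • Z2 x - t • (Z0 x + Z1 x) := fun x => rfl
  have c1pos : 0 < 1 - t ^ 2 := by nlinarith
  have c2pos : 0 < (1 + t) * (1 - t) * (1 + 2 * t) := by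
    apply mul_pos (mul_pos (by linarith) (by linarith)) (by linarith)
  have anti01 : ∀ x, Z0 (e1 x) = - e1 (Z0 x) := by
    intro x
    simp only [he1a, map_sub, map_smul, h0]
    linear_combination (norm := module) (h01 x)
  have sq1 : ∀ x, e1 (e1 x) = (1 - t ^ 2) • x := by
    intro x
    simp only [he1a, map_sub, map_smul, h0, h1]
    linear_combination (norm := module) (-t) • (h01 x)
  have anti02 : ∀ x, Z0 (e2 x) = - e2 (Z0 x) := by
    intro x
    simp only [he2a, map_sub, map_add, map_smul, h0]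
    linear_combination (norm := module) (1 + t) • (h02 x) - t • (h01 x)
  have anti12 : ∀ x, e1 (e2 x) = - e2 (e1 x) := by
    intro x
    simp only [he1a, he2a, map_sub, map_add, map_smul, h0, h1]
    linear_combination (norm := module) (1 + t) • (h12 x) - (t * (1 + t)) • (h02 x)
      + (t ^ 2 - t) • (h01 x)
  have sq2 : ∀ x, e2 (e2 x) = ((1 + t) * (1 - t) * (1 + 2 * t)) • x := by
    intro x
    simp only [he2a, map_sub, map_add, map_smul, h0, h1, h2]
    linear_combination (norm := module) (-(t * (1 + t))) • (h12 x) - (t * (1 + t)) • (h02 x)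
      + (t ^ 2) • (h01 x)
  have hinj1 : Function.Injective e1 := by
    rw [← LinearMap.ker_eq_bot, eq_bot_iff]
    intro x hx
    have := sq1 x
    rw [LinearMap.mem_ker.mp hx, map_zero] at this
    exact (smul_eq_zero.mp this.symm).resolve_left c1pos.ne'
  have hdim := two_mul_finrank_le Z0 e1 (1:ℝ) (by norm_num) hinj1 anti01
  set A := LinearMap.ker (Z0 - (1:ℝ) • LinearMap.id) with hA
  have hmemA : ∀ x, x ∈ A ↔ Z0 x = x := by
    intro x
    simp only [hA, LinearMap.mem_ker, LinearMap.sub_apply, LinearMap.id_apply, sub_eq_zero, one_smul]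
  have hAne : A ≠ ⊥ := by
    intro hbot
    have hall : ∀ x, Z0 x = - x := by
      intro x
      have : Z0 x + x ∈ A := by
        rw [hmemA, map_add, h0, add_comm]
      rw [hbot, Submodule.mem_bot] at this
      exact eq_neg_of_add_eq_zero_left this
    obtain ⟨x, hx⟩ := exists_ne (0 : M)
    have h3 := anti01 x
    rw [hall, hall, map_neg, neg_neg] at h3
    have h4 : (2:ℝ) • e1 x = 0 := by rw [two_smul]; nth_rewrite 1 [← h3]; simp
    have h5 := (smul_eq_zero.mp h4).resolve_left two_ne_zero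
    exact hx (hinj1 (by rw [h5, map_zero]))
  have : Nontrivial A := Submodule.nontrivial_iff_ne_bot.mpr hAne
  -- f = e1 e2 preserves A and f² = -c
  have hfA : ∀ x ∈ A, (e1 ∘ₗ e2) x ∈ A := by
    intro x hx
    rw [hmemA] at hx ⊢
    rw [LinearMap.comp_apply, anti01, anti02, map_neg, neg_neg, hx]
  set f := (e1 ∘ₗ e2).restrict hfA with hf
  have hff : ∀ x : A, f (f x) = (-((1 - t ^ 2) * ((1 + t) * (1 - t) * (1 + 2 * t)))) • x := by
    intro x
    apply Subtype.ext
    simp only [hf, LinearMap.coe_restrict_apply, LinearMap.comp_apply, SetLike.val_smul]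
    have h6 : e2 (e1 (e2 x.1)) = - e1 (e2 (e2 x.1)) := by rw [anti12 (e2 x.1), neg_neg]
    rw [h6, sq2, map_neg, map_smul, map_smul, sq1]
    module
  have h2A : 2 ≤ finrank ℝ A := by
    by_contra hlt
    have h1A : finrank ℝ A = 1 := by
      have : 0 < finrank ℝ A := finrank_pos
      omega
    obtain ⟨v, hv0, hv⟩ := finrank_eq_one_iff'.mp h1A
    obtain ⟨c, hc⟩ := hv (f v)
    have h3 := hff v
    rw [← hc, map_smul, ← hc, smul_smul] at h3
    have h4 : (c * c + (1 - t ^ 2) * ((1 + t) * (1 - t) * (1 + 2 * t))) • v = 0 := by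
      rw [add_smul, h3]; module
    have h5 := (smul_eq_zero.mp h4).resolve_right hv0
    have : 0 < (1 - t ^ 2) * ((1 + t) * (1 - t) * (1 + 2 * t)) := mul_pos c1pos c2pos
    nlinarith [mul_self_nonneg c]
  omega

section Four

variable {W : Type*} [NormedAddCommGroup W] [InnerProductSpace ℝ W] [FiniteDimensional ℝ W]
  {lam : ℝ}

omit [FiniteDimensional ℝ W] in
/-- restriction of three involutions to an invariant subspace of `K` -/
theorem Cfg.gap_three {ι : Type*} {P : ι → W →ₗ[ℝ] W} (h : Cfg lam P) (hlam : lam < 1)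
    (hlam' : 1/4 < lam) (a b c : ι) (hab : a ≠ b) (hac : a ≠ c) (hbc : b ≠ c) (J : Finset ι)
    (haJ : a ∈ J) (hbJ : b ∈ J) (hcJ : c ∈ J) (G : Submodule ℝ W) [FiniteDimensional ℝ G]
    (hG : G ≤ K lam P J) (hinv : ∀ l ∈ J, ∀ x ∈ G, P l x ∈ G) (hne : G ≠ ⊥) :
    4 ≤ finrank ℝ G := by
  have : Nontrivial G := Submodule.nontrivial_iff_ne_bot.mpr hne
  have hZ : ∀ l ∈ J, ∀ x ∈ G, ((2:ℝ) • P l - LinearMap.id : W →ₗ[ℝ] W) x ∈ G := by
    intro l hl x hx
    rw [LinearMap.sub_apply, LinearMap.smul_apply, LinearMap.id_apply]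
    exact G.sub_mem (G.smul_mem _ (hinv l hl x hx)) hx
  have hsq : ∀ l (hl : l ∈ J) (x : G),
      (((2:ℝ) • P l - LinearMap.id : W →ₗ[ℝ] W).restrict (hZ l hl))
        ((((2:ℝ) • P l - LinearMap.id : W →ₗ[ℝ] W).restrict (hZ l hl)) x) = x := by
    intro l hl x
    apply Subtype.ext
    simp only [LinearMap.coe_restrict_apply, LinearMap.sub_apply, LinearMap.smul_apply,
        LinearMap.id_apply, map_sub, map_smul, h.idem]
    module
  have hanti : ∀ i (hi : i ∈ J) j (hj : j ∈ J) (hij : i ≠ j) (x : G),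
      (((2:ℝ) • P i - LinearMap.id : W →ₗ[ℝ] W).restrict (hZ i hi))
        ((((2:ℝ) • P j - LinearMap.id : W →ₗ[ℝ] W).restrict (hZ j hj)) x) +
      (((2:ℝ) • P j - LinearMap.id : W →ₗ[ℝ] W).restrict (hZ j hj))
        ((((2:ℝ) • P i - LinearMap.id : W →ₗ[ℝ] W).restrict (hZ i hi)) x) =
      (2 * (2 * lam - 1)) • x := by
    intro i hi j hj hij x
    apply Subtype.ext
    have hx := hG x.2 i hi j hj hij
    rw [R_apply, sub_eq_zero] at hx
    simp only [Submodule.coe_add, LinearMap.coe_restrict_apply, LinearMap.sub_apply,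
      LinearMap.smul_apply, LinearMap.id_apply, map_sub, map_smul, SetLike.val_smul]
    have h2 : P i (P j x.1) + P j (P i x.1) = P i x.1 + P j x.1 - (1 - lam) • x.1 := by
      rw [hx]; abel
    calc _ = (4:ℝ) • (P i (P j x.1) + P j (P i x.1)) -
        (4:ℝ) • (P i x.1 + P j x.1) + (2:ℝ) • x.1 := by module
      _ = _ := by rw [h2]; module
  exact three_involutions _ _ _ (2 * lam - 1) (by linarith) (by linarith)
    (hsq a haJ) (hsq b hbJ) (hsq c hcJ) (hanti a haJ b hbJ hab) (hanti a haJ c hcJ hac)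
    (hanti b hbJ c hcJ hbc)

/-- Four unit vectors with pairwise inner products `± s`, `s > 1/2`, `s < 1` are independent. -/
theorem four_lines {E : Type*} [NormedAddCommGroup E] [InnerProductSpace ℝ E]
    [FiniteDimensional ℝ E] (s : ℝ) (hs : 1/2 < s) (hs1 : s < 1) (u : Fin 4 → E)
    (hu : ∀ i, inner ℝ (u i) (u i) = (1:ℝ))
    (huv : ∀ i j, i ≠ j → inner ℝ (u i) (u j) = s ∨ inner ℝ (u i) (u j) = -s) :
    4 ≤ finrank ℝ E := by
  -- normalise signs
  set σ : Fin 4 → ℝ := fun i => if i = 0 then 1 else if inner ℝ (u 0) (u i) = s then 1 else -1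
    with hσ
  have hσ2 : ∀ i, σ i * σ i = 1 := by
    intro i; simp only [hσ]; split_ifs <;> norm_num
  set w : Fin 4 → E := fun i => σ i • u i with hw
  have hw1 : ∀ i, inner ℝ (w i) (w i) = (1:ℝ) := by
    intro i
    rw [hw, inner_smul_left, inner_smul_right, hu]
    simp [hσ2]
  have hw0 : ∀ i, i ≠ 0 → inner ℝ (w 0) (w i) = s := by
    intro i hi
    have h0 : σ 0 = 1 := by simp [hσ]
    rw [hw, inner_smul_left, inner_smul_right, h0]
    simp only [hσ, hi, if_false, map_one, one_mul]
    rcases huv 0 i (Ne.symm hi) with h | h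
    · rw [if_pos h, one_mul, h]
    · have hne : inner ℝ (u 0) (u i) ≠ s := by rw [h]; linarith
      rw [if_neg hne, h]; ring
  have hww : ∀ i j, i ≠ j → inner ℝ (w i) (w j) = s ∨ inner ℝ (w i) (w j) = -s := by
    intro i j hij
    rw [hw, inner_smul_left, inner_smul_right, RCLike.conj_to_real]
    have h1 : σ i = 1 ∨ σ i = -1 := by
      simp only [hσ]; split_ifs <;> simp
    have h2 : σ j = 1 ∨ σ j = -1 := by
      simp only [hσ]; split_ifs <;> simp
    rcases huv i j hij with h | h <;> rcases h1 with h1 | h1 <;> rcases h2 with h2 | h2 <;>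
      rw [h, h1, h2] <;> simp
  have hall : ∀ i j, i ≠ j → inner ℝ (w i) (w j) = s := by
    intro i j hij
    by_cases hi : i = 0
    · subst hi; exact hw0 j (Ne.symm hij)
    by_cases hj : j = 0
    · subst hj; rw [real_inner_comm]; exact hw0 i hi
    rcases hww i j hij with h | h
    · exact h
    · exfalso
      have hpos : 0 ≤ inner ℝ (w i + w j - (2 * s) • w 0) (w i + w j - (2 * s) • w 0) :=
        real_inner_self_nonneg
      have h0i := hw0 i hi
      have h0j := hw0 j hj
      have hi0 : inner ℝ (w i) (w 0) = s := by rw [real_inner_comm]; exact h0i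
      have hj0 : inner ℝ (w j) (w 0) = s := by rw [real_inner_comm]; exact h0j
      have hji : inner ℝ (w j) (w i) = -s := by rw [real_inner_comm]; exact h
      simp only [inner_sub_left, inner_sub_right, inner_add_left, inner_add_right,
        inner_smul_left, inner_smul_right, RCLike.conj_to_real, hw1, h0i, h0j, hi0, hj0, h, hji]
        at hpos
      nlinarith
  have hli : LinearIndependent ℝ w := by
    rw [Fintype.linearIndependent_iff]
    intro g hg
    have h1 : ∀ j, (1 - s) * g j + s * ∑ i, g i = 0 := by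
      intro j
      have h2 : inner ℝ (w j) (∑ i, g i • w i) = (0:ℝ) := by rw [hg, inner_zero_right]
      rw [inner_sum] at h2
      have h3 : ∀ i, inner ℝ (w j) (g i • w i) = s * g i + if i = j then (1 - s) * g i else 0 := by
        intro i
        rw [inner_smul_right]
        by_cases hij : i = j
        · subst hij; rw [hw1, if_pos rfl]; ring
        · rw [hall j i (Ne.symm hij), if_neg hij]; ring
      simp_rw [h3] at h2
      rw [Finset.sum_add_distrib, ← Finset.mul_sum] at h2
      simp only [Finset.sum_ite_eq', Finset.mem_univ, if_true] at h2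
      linarith
    have hS : (1 - s + 4 * s) * ∑ i, g i = 0 := by
      have h8 : ∑ j : Fin 4, ((1 - s) * g j + s * ∑ i, g i) = 0 :=
        Finset.sum_eq_zero (fun j _ => h1 j)
      rw [Finset.sum_add_distrib, ← Finset.mul_sum, Finset.sum_const, Finset.card_univ,
        nsmul_eq_mul] at h8
      simp at h8
      linarith
    have hS0 : ∑ i, g i = 0 := (mul_eq_zero.mp hS).resolve_left (by linarith)
    intro j
    have h9 := h1 j
    rw [hS0, mul_zero, add_zero] at h9
    exact (mul_eq_zero.mp h9).resolve_left (by linarith)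
  simpa using hli.fintype_card_le_finrank

theorem Cfg.no_four {P : Fin 4 → W →ₗ[ℝ] W} (h : Cfg lam P) (h0 : 0 ≤ lam) (h1 : lam < 1) {N : ℕ}
    (hN : ∀ i, finrank ℝ (LinearMap.range (P i)) = N) (hW : finrank ℝ W = 2 * N + 1)
    (hN3 : 3 ≤ N)
    (hspan : LinearMap.range (P 0) ⊔ LinearMap.range (P 1) ⊔ LinearMap.range (P 2) = ⊤) :
    False := by
  have hlam : lam ≠ 1 := h1.ne
  have hKge := h.finrank_K_ge hlam hN hW Finset.univ
  rw [Finset.card_univ, Fintype.card_fin] at hKge
  have hKne : K lam P Finset.univ ≠ ⊥ := by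
    intro hbot; rw [hbot, finrank_bot] at hKge; omega
  have hl := h.lam_ge hlam hKne
  rw [Fintype.card_fin] at hl
  have hl3 : 1/3 ≤ lam := by norm_num at hl; linarith
  set T : Finset (Fin 4) := {0, 1, 2} with hT
  have hins : insert 3 T = Finset.univ := by decide
  have hTc : T.card = 3 := by decide
  have hle : K lam P Finset.univ ≤ K lam P T := K_mono (Finset.subset_univ _)
  have h2 := h.finrank_K_insert hlam hN hW T 3 (by decide)
  rw [hins, hTc] at h2
  have h3 := Submodule.finrank_add_inf_finrank_orthogonal hle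
  have hG : (K lam P Finset.univ)ᗮ ⊓ K lam P T = ⊥ := by
    by_contra hne
    have := h.gap_three h1 (by linarith) 0 1 2 (by decide) (by decide) (by decide) T
      (by decide) (by decide) (by decide) ((K lam P Finset.univ)ᗮ ⊓ K lam P T) inf_le_right
      (by
        intro l hl x ⟨hx1, hx2⟩
        exact ⟨h.K_orth_inv hlam (Finset.mem_univ l) hx1, h.K_inv hlam hl hx2⟩) hne
    omega
  rw [hG, finrank_bot, add_zero] at h3
  have hKT := h.finrank_K_ge hlam hN hW T
  rw [hTc, ← h3] at hKT
  have horth := Submodule.finrank_add_finrank_orthogonal (𝕜 := ℝ) (K lam P Finset.univ)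
  set E := (K lam P Finset.univ)ᗮ with hE
  have hE3 : finrank ℝ E ≤ 3 := by omega
  have hspan' : ⨆ i, LinearMap.range (P i) = ⊤ := by
    rw [eq_top_iff, ← hspan]
    exact sup_le (sup_le (le_iSup (fun i => LinearMap.range (P i)) 0)
      (le_iSup (fun i => LinearMap.range (P i)) 1)) (le_iSup (fun i => LinearMap.range (P i)) 2)
  have hinv : ∀ i, ∀ x ∈ E, P i x ∈ E := fun i x hx => h.K_orth_inv hlam (Finset.mem_univ i) hx
  set L' : Fin 4 → Submodule ℝ W := fun i => E ⊓ LinearMap.range (P i) with hL'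
  have hLne : ∀ i, 0 < finrank ℝ (L' i) := by
    intro i
    obtain ⟨x, hx, hx0⟩ := h.exists_ne_zero hlam one_pos hN hW hspan' (by simp) i
    rw [Module.finrank_pos_iff, Submodule.nontrivial_iff_ne_bot]
    intro hbot
    have : P i x ∈ L' i := ⟨hinv i x hx, ⟨x, rfl⟩⟩
    rw [hbot, Submodule.mem_bot] at this
    exact hx0 this
  have hLle : ∀ i j, i ≠ j → finrank ℝ (L' i) ≤ finrank ℝ (L' j) := by
    intro i j hij
    let g : L' i →ₗ[ℝ] L' j :=
      { toFun := fun y => ⟨P j y.1, hinv j _ y.2.1, ⟨_, rfl⟩⟩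
        map_add' := by intro x y; apply Subtype.ext; simp
        map_smul' := by intro c x; apply Subtype.ext; simp }
    apply LinearMap.finrank_le_finrank_of_injective (f := g)
    intro x y hxy
    have h4 : P j x.1 = P j y.1 := congrArg Subtype.val hxy
    have hx : P i x.1 = x.1 := (h.mem_range_iff i _).mp x.2.2
    have hy : P i y.1 = y.1 := (h.mem_range_iff i _).mp y.2.2
    have h5 := h.iso i j hij x.1
    have h6 := h.iso i j hij y.1
    rw [hx] at h5
    rw [hy] at h6
    rw [h4, h6] at h5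
    have h7 : lam ≠ 0 := by linarith
    exact Subtype.ext (smul_right_injective W h7 h5.symm)
  have hL1 : ∀ i, finrank ℝ (L' i) = 1 := by
    intro i
    obtain ⟨j, hj⟩ : ∃ j, j ≠ i := exists_ne i
    have h4 := Submodule.finrank_sup_add_finrank_inf_eq (L' i) (L' j)
    have h5 : L' i ⊓ L' j = ⊥ := by
      rw [eq_bot_iff, ← h.range_inf hlam hj.symm]
      exact inf_le_inf inf_le_right inf_le_right
    have h6 : finrank ℝ (L' i ⊔ L' j : Submodule ℝ W) ≤ finrank ℝ E :=
      Submodule.finrank_mono (sup_le inf_le_left inf_le_left)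
    rw [h5, finrank_bot] at h4
    have h7 := hLle i j hj.symm
    have h8 := hLne i
    omega
  have hchoose : ∀ i, ∃ u : W, u ∈ L' i ∧ inner ℝ u u = (1:ℝ) ∧ ∀ y ∈ L' i, ∃ c : ℝ, y = c • u := by
    intro i
    obtain ⟨v, hv0, hv⟩ := finrank_eq_one_iff'.mp (hL1 i)
    have hvn : ‖(v : W)‖ ≠ 0 := by
      rw [norm_ne_zero_iff]
      intro h; exact hv0 (Subtype.ext h)
    refine ⟨(‖(v : W)‖⁻¹) • (v : W), (L' i).smul_mem _ v.2, ?_, ?_⟩
    · rw [inner_smul_left, inner_smul_right, real_inner_self_eq_norm_sq]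
      simp only [RCLike.conj_to_real]
      field_simp
    · intro y hy
      obtain ⟨c, hc⟩ := hv ⟨y, hy⟩
      refine ⟨c * ‖(v : W)‖, ?_⟩
      have : c • (v : W) = y := congrArg Subtype.val hc
      rw [smul_smul, mul_assoc, mul_inv_cancel₀ hvn, mul_one, this]
  choose u hu1 hu2 hu3 using hchoose
  have hPu : ∀ i, P i (u i) = u i := fun i => (h.mem_range_iff i _).mp (hu1 i).2
  have hinner : ∀ i j, i ≠ j → inner ℝ (u i) (u j) * inner ℝ (u i) (u j) = lam := by
    intro i j hij
    obtain ⟨c, hc⟩ := hu3 j (P j (u i)) ⟨hinv j _ (hu1 i).1, ⟨_, rfl⟩⟩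
    have e1 : inner ℝ (u i) (u j) = c := by
      have : inner ℝ (P j (u i)) (u j) = inner ℝ (u i) (P j (u j)) := h.sym j _ _
      rw [hPu j, hc, inner_smul_left, hu2] at this
      simpa using this.symm
    have e2 : inner ℝ (u i) (P j (u i)) = lam := by
      have h5 := h.iso i j hij (u i)
      rw [hPu i] at h5
      have : inner ℝ (u i) (P i (P j (u i))) = inner ℝ (P i (u i)) (P j (u i)) := (h.sym i _ _).symm
      rw [h5, hPu i, inner_smul_right, hu2, mul_one] at this
      exact this.symm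
    rw [hc, inner_smul_right, e1] at e2
    rw [e1, e2]
  have hsl : Real.sqrt lam * Real.sqrt lam = lam := Real.mul_self_sqrt h0
  have hs0 : 0 ≤ Real.sqrt lam := Real.sqrt_nonneg _
  have hs : 1/2 < Real.sqrt lam := by
    rw [Real.lt_sqrt (by norm_num)]; norm_num; linarith
  have hs1 : Real.sqrt lam < 1 := by
    rw [Real.sqrt_lt' (by norm_num)]; linarith
  have h4 := four_lines (E := E) (Real.sqrt lam) hs hs1 (fun i => ⟨u i, (hu1 i).1⟩)
    (fun i => hu2 i)
    (by
      intro i j hij
      have h5 := hinner i j hij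
      have h6 : (inner ℝ (u i) (u j) - Real.sqrt lam) * (inner ℝ (u i) (u j) + Real.sqrt lam) = 0 := by
        ring_nf
        nlinarith
      rcases mul_eq_zero.mp h6 with h7 | h7
      · left; rw [Submodule.coe_inner]; linarith
      · right; rw [Submodule.coe_inner]; linarith)
  omega

end Four

section Final

variable {n p : ℕ} {lam : ℝ} {V : Fin p → Submodule ℝ (Sp ℝ (2 * n + 1))}

/-- restricting a configuration along an injection -/
theorem Cfg.comp {W : Type*} [NormedAddCommGroup W] [InnerProductSpace ℝ W] {ι κ : Type*}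
    {P : ι → W →ₗ[ℝ] W} (h : Cfg lam P) (f : κ → ι) (hf : Function.Injective f) :
    Cfg lam (fun i => P (f i)) where
  sym := fun i => h.sym (f i)
  idem := fun i => h.idem (f i)
  iso := fun i j hij => h.iso (f i) (f j) (fun h => hij (hf h))

theorem upper (hn : 3 ≤ n) (h : EquiIsoclinic ℝ n (2 * n + 1) p lam V) : p ≤ 3 := by
  by_contra hp
  push Not at hp
  have hcfg := h.cfg
  have hN : ∀ i, finrank ℝ (LinearMap.range (h.P i)) = n := by
    intro i; rw [h.finrank_range, finrank_self, one_mul]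
  have hW : finrank ℝ (Sp ℝ (2 * n + 1)) = 2 * n + 1 := by
    rw [finrank_Sp, finrank_self, one_mul]
  have hspan := h.iSup_range
  set a : Fin p := ⟨0, by omega⟩
  set b : Fin p := ⟨1, by omega⟩
  have hab : a ≠ b := by simp [a, b]
  have hsup := hcfg.finrank_sup h.lt_one.ne hN hab
  -- third subspace
  obtain ⟨c, hc⟩ : ∃ c, ¬ LinearMap.range (h.P c) ≤ LinearMap.range (h.P a) ⊔ LinearMap.range (h.P b) := by
    by_contra hcon
    push Not at hcon
    have : LinearMap.range (h.P a) ⊔ LinearMap.range (h.P b) = ⊤ := by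
      rw [eq_top_iff, ← hspan]; exact iSup_le hcon
    rw [this, finrank_top, hW] at hsup
    omega
  have hca : c ≠ a := by rintro rfl; exact hc le_sup_left
  have hcb : c ≠ b := by rintro rfl; exact hc le_sup_right
  have htop : LinearMap.range (h.P a) ⊔ LinearMap.range (h.P b) ⊔ LinearMap.range (h.P c) = ⊤ := by
    apply Submodule.eq_top_of_finrank_eq
    have h1 : LinearMap.range (h.P a) ⊔ LinearMap.range (h.P b) <
        LinearMap.range (h.P a) ⊔ LinearMap.range (h.P b) ⊔ LinearMap.range (h.P c) := by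
      refine lt_of_le_of_ne le_sup_left ?_
      intro heq
      apply hc
      rw [heq]; exact le_sup_right
    have h2 := Submodule.finrank_lt_finrank_of_lt h1
    have h3 := Submodule.finrank_le
      (LinearMap.range (h.P a) ⊔ LinearMap.range (h.P b) ⊔ LinearMap.range (h.P c))
    omega
  obtain ⟨d, hd⟩ : ∃ d, d ∉ ({a, b, c} : Finset (Fin p)) := by
    by_contra hcon
    push Not at hcon
    have h1 : (Finset.univ : Finset (Fin p)) ⊆ {a, b, c} := fun x _ => hcon x
    have h2 := Finset.card_le_card h1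
    rw [Finset.card_univ, Fintype.card_fin] at h2
    have h3 : ({a, b, c} : Finset (Fin p)).card ≤ 3 := Finset.card_le_three
    omega
  simp only [Finset.mem_insert, Finset.mem_singleton, not_or] at hd
  have hf : Function.Injective ![a, b, c, d] := by
    intro i j hij
    fin_cases i <;> fin_cases j <;> simp_all [eq_comm]
  exact (hcfg.comp ![a, b, c, d] hf).no_four h.nonneg h.lt_one (N := n) (fun i => hN _) hW hn htop

end Final

end Pool.Agent.H32Iso
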