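import Mathlib

set_option autoImplicit false

/-! Definitions for equi-isoclinic subspaces over the reals, complexes and quaternions. -/

namespace Pool.Agent.H32Iso

open Module

/-- The space `F ^ r` with its standard Euclidean norm; as a real inner product space its inner
product is the real part of the standard Hermitian form. -/
abbrev Sp (F : Type) (r : ℕ) : Type := PiLp 2 (fun _ : Fin r => F)

section

variable {F : Type} [NormedDivisionRing F] [InnerProductSpace ℝ F]

/-- `y` is the orthogonal projection of the vector `x` of `F ^ r` onto the `F`-subspace `V`. -/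
def IsProj {r : ℕ} (V : Submodule F (Sp F r)) (x y : Sp F r) : Prop :=
  y ∈ V ∧ ∀ w ∈ V, inner ℝ (x - y) w = (0 : ℝ)

/-- `P Q P = lam P` for the orthogonal projections `P`, `Q` onto `V`, `V'`. -/
def Iso {r : ℕ} (lam : ℝ) (V V' : Submodule F (Sp F r)) : Prop :=
  ∀ x y z w, IsProj V x y → IsProj V' y z → IsProj V z w → w = lam • y

/-- The subspaces `V i` together span `F ^ r`. -/
def Spans {r p : ℕ} (V : Fin p → Submodule F (Sp F r)) : Prop :=
  ⨆ i, V i = ⊤

variable (F) in
/-- `V` is a family of `p` equi-isoclinic `n`-subspaces of `F ^ r` with parameter `lam`, the common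
angle `arccos (sqrt lam)` being non-zero, and together they span `F ^ r`. -/
structure EquiIsoclinic (n r p : ℕ) (lam : ℝ) (V : Fin p → Submodule F (Sp F r)) : Prop where
  nonneg : 0 ≤ lam
  lt_one : lam < 1
  rank : ∀ i, finrank F (V i) = n
  span : Spans V
  iso : ∀ i j, i ≠ j → Iso lam (V i) (V j)

variable (F) in
/-- The set of all `p` for which there are `p` equi-isoclinic `n`-subspaces of `F ^ r`. -/
def sizes (n r : ℕ) : Set ℕ :=
  {p | ∃ (lam : ℝ) (V : Fin p → Submodule F (Sp F r)), EquiIsoclinic F n r p lam V}

end

end Pool.Agent.H32Iso
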