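import Pool.Agent.H32Iso.Fields
import Pool.Agent.H32Iso.Blocks

set_option autoImplicit false

/-! Adding a Clifford block to an equi-isoclinic family. -/

namespace Pool.Agent.H32Iso

open Module Matrix

section Act

variable {F : Type} [NormedDivisionRing F] [InnerProductSpace ℝ F] {s : ℕ}

/-- Action of a real matrix on `F ^ s`. -/
noncomputable def act (A : Matrix (Fin s) (Fin s) ℝ) : Sp F s →ₗ[ℝ] Sp F s where
  toFun y := WithLp.toLp 2 (fun a => ∑ b, A a b • y b)
  map_add' x y := by
    ext a; simp [smul_add, Finset.sum_add_distrib]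
  map_smul' c x := by
    ext a
    simp only [PiLp.smul_apply, RingHom.id_apply, Finset.smul_sum]
    exact Finset.sum_congr rfl fun b _ => smul_comm _ _ _

theorem act_apply (A : Matrix (Fin s) (Fin s) ℝ) (y : Sp F s) (a : Fin s) :
    act A y a = ∑ b, A a b • y b := rfl

theorem act_add (A B : Matrix (Fin s) (Fin s) ℝ) (y : Sp F s) :
    act (A + B) y = act A y + act B y := by
  ext a; simp [act_apply, add_smul, Finset.sum_add_distrib]

theorem act_neg (A : Matrix (Fin s) (Fin s) ℝ) (y : Sp F s) :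
    act (-A) y = - act A y := by
  ext a; simp [act_apply]

theorem act_smul (c : ℝ) (A : Matrix (Fin s) (Fin s) ℝ) (y : Sp F s) :
    act (c • A) y = c • act A y := by
  ext a; simp [act_apply, Finset.smul_sum, mul_smul]

theorem act_one (y : Sp F s) : act 1 y = y := by
  ext a; simp [act_apply, Matrix.one_apply]

theorem act_mul (A B : Matrix (Fin s) (Fin s) ℝ) (y : Sp F s) :
    act (A * B) y = act A (act B y) := by
  ext a
  simp only [act_apply, Matrix.mul_apply, Finset.sum_smul, Finset.smul_sum, mul_smul]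
  rw [Finset.sum_comm]

theorem act_inner (A : Matrix (Fin s) (Fin s) ℝ) (hA : Aᵀ = A) (x y : Sp F s) :
    inner ℝ (act A x) y = inner ℝ x (act A y) := by
  simp only [PiLp.inner_apply, act_apply, sum_inner, inner_sum, inner_smul_left, inner_smul_right,
    RCLike.conj_to_real]
  rw [Finset.sum_comm]
  refine Finset.sum_congr rfl fun a _ => Finset.sum_congr rfl fun b _ => ?_
  have : A b a = A a b := congrFun (congrFun hA a) b
  rw [this]

variable [IsScalarTower ℝ F F] [SMulCommClass ℝ F F]

omit [IsScalarTower ℝ F F] in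
theorem act_smulF (A : Matrix (Fin s) (Fin s) ℝ) (c : F) (y : Sp F s) :
    act A (c • y) = c • act A y := by
  ext a
  simp only [act_apply, PiLp.smul_apply, Finset.smul_sum]
  exact Finset.sum_congr rfl fun b _ => smul_comm _ _ _

/-- the fixed space of a real matrix -/
noncomputable def fix (A : Matrix (Fin s) (Fin s) ℝ) : Submodule F (Sp F s) where
  carrier := {y | act A y = y}
  add_mem' := by
    intro a b ha hb
    simp only [Set.mem_ofPred_eq] at *
    rw [map_add, ha, hb]
  zero_mem' := by simp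
  smul_mem' := by
    intro c x hx
    simp only [Set.mem_ofPred_eq] at *
    rw [act_smulF, hx]

theorem mem_fix {A : Matrix (Fin s) (Fin s) ℝ} {y : Sp F s} : y ∈ (fix A : Submodule F (Sp F s)) ↔
    act A y = y := Iff.rfl

omit [SMulCommClass ℝ F F] [IsScalarTower ℝ F F] [InnerProductSpace ℝ F] in
theorem finrankF_Sp : finrank F (Sp F s) = s := by
  rw [(WithLp.linearEquiv 2 F (Fin s → F)).finrank_eq, Module.finrank_fintype_fun_eq_card]
  simp

theorem two_mul_finrank_fix (Z T T' : Matrix (Fin s) (Fin s) ℝ) (hZ : Z * Z = 1) (hT : T' * T = 1)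
    (hTZ : T * Z = - (Z * T)) : 2 * finrank F (fix Z : Submodule F (Sp F s)) = s := by
  -- complement is fix (-Z)
  have hc : IsCompl (fix Z : Submodule F (Sp F s)) (fix (-Z)) := by
    constructor
    · rw [Submodule.disjoint_def]
      intro x h1 h2
      rw [mem_fix] at h1 h2
      rw [act_neg, h1] at h2
      have : (2:ℝ) • x = 0 := by rw [two_smul]; nth_rewrite 1 [← h2]; simp
      exact (smul_eq_zero.mp this).resolve_left two_ne_zero
    · rw [Submodule.codisjoint_iff_exists_add_eq]
      intro z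
      refine ⟨(1/2:ℝ) • (z + act Z z), (1/2:ℝ) • (z - act Z z), ?_, ?_, by module⟩
      · rw [mem_fix, map_smul, map_add, ← act_mul, hZ, act_one, add_comm]
      · rw [mem_fix, map_smul, map_sub, act_neg, act_neg, ← act_mul, hZ, act_one]; module
  have h1 := Submodule.finrank_add_eq_of_isCompl hc
  rw [finrankF_Sp] at h1
  have hle : ∀ (A B : Matrix (Fin s) (Fin s) ℝ), (∀ y : Sp F s, y ∈ (fix A : Submodule F (Sp F s)) →
      act T y ∈ (fix B : Submodule F (Sp F s))) →
      finrank F (fix A : Submodule F (Sp F s)) ≤ finrank F (fix B : Submodule F (Sp F s)) := by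
    intro A B hAB
    let g : (fix A : Submodule F (Sp F s)) →ₗ[F] (fix B : Submodule F (Sp F s)) :=
      { toFun := fun y => ⟨act T y.1, hAB _ y.2⟩
        map_add' := by intro x y; apply Subtype.ext; simp
        map_smul' := by intro c x; apply Subtype.ext; simp [act_smulF] }
    apply LinearMap.finrank_le_finrank_of_injective (f := g)
    intro x y hxy
    have h2 : act T x.1 = act T y.1 := congrArg Subtype.val hxy
    have h3 := congrArg (act T') h2
    rw [← act_mul, ← act_mul, hT, act_one, act_one] at h3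
    exact Subtype.ext h3
  have h2 := hle Z (-Z) (by
    intro y hy
    rw [mem_fix] at hy ⊢
    rw [act_neg, ← act_mul]
    have : Z * T = - (T * Z) := by rw [hTZ, neg_neg]
    rw [this, act_neg, neg_neg, act_mul, hy])
  have h3 := hle (-Z) Z (by
    intro y hy
    rw [mem_fix] at hy ⊢
    rw [← act_mul]
    have : Z * T = T * (-Z) := by rw [mul_neg, hTZ, neg_neg]
    rw [this, act_mul, hy])
  omega

end Act

section Sum

variable {F : Type} [NormedDivisionRing F] {r s : ℕ}

/-- left part -/
def lft (x : Sp F (r + s)) : Sp F r := WithLp.toLp 2 (fun i => x (Fin.castAdd s i))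
/-- right part -/
def rgt (x : Sp F (r + s)) : Sp F s := WithLp.toLp 2 (fun i => x (Fin.natAdd r i))
/-- glue -/
def glue (a : Sp F r) (b : Sp F s) : Sp F (r + s) := WithLp.toLp 2 (Fin.append a b)

@[simp] theorem lft_glue (a : Sp F r) (b : Sp F s) : lft (glue a b) = a := by
  ext i; simp [lft, glue]
@[simp] theorem rgt_glue (a : Sp F r) (b : Sp F s) : rgt (glue a b) = b := by
  ext i; simp [rgt, glue]
theorem glue_eta (x : Sp F (r + s)) : glue (lft x) (rgt x) = x := by
  ext i
  refine Fin.addCases (fun i => ?_) (fun i => ?_) i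
  · simp [lft, glue]
  · simp [rgt, glue]
theorem ext_lr {x y : Sp F (r + s)} (h1 : lft x = lft y) (h2 : rgt x = rgt y) : x = y := by
  rw [← glue_eta x, ← glue_eta y, h1, h2]
@[simp] theorem lft_add (x y : Sp F (r + s)) : lft (x + y) = lft x + lft y := rfl
@[simp] theorem rgt_add (x y : Sp F (r + s)) : rgt (x + y) = rgt x + rgt y := rfl
@[simp] theorem lft_sub (x y : Sp F (r + s)) : lft (x - y) = lft x - lft y := rfl
@[simp] theorem rgt_sub (x y : Sp F (r + s)) : rgt (x - y) = rgt x - rgt y := rfl
@[simp] theorem lft_smulF (c : F) (x : Sp F (r + s)) : lft (c • x) = c • lft x := rfl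
@[simp] theorem rgt_smulF (c : F) (x : Sp F (r + s)) : rgt (c • x) = c • rgt x := rfl
@[simp] theorem lft_zero : lft (0 : Sp F (r + s)) = 0 := rfl
@[simp] theorem rgt_zero : rgt (0 : Sp F (r + s)) = 0 := rfl

variable [InnerProductSpace ℝ F]

@[simp] theorem lft_smulR (c : ℝ) (x : Sp F (r + s)) : lft (c • x) = c • lft x := rfl
@[simp] theorem rgt_smulR (c : ℝ) (x : Sp F (r + s)) : rgt (c • x) = c • rgt x := rfl

theorem inner_lr (x y : Sp F (r + s)) :
    inner ℝ x y = inner ℝ (lft x) (lft y) + inner ℝ (rgt x) (rgt y) := by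
  simp only [PiLp.inner_apply, Fin.sum_univ_add]
  rfl

variable [IsScalarTower ℝ F F] [SMulCommClass ℝ F F] [FiniteDimensional ℝ F]

/-- the block sum of a subspace and a fixed space -/
noncomputable def blockSum (V : Submodule F (Sp F r)) (Z : Matrix (Fin s) (Fin s) ℝ) :
    Submodule F (Sp F (r + s)) where
  carrier := {x | lft x ∈ V ∧ rgt x ∈ (fix Z : Submodule F (Sp F s))}
  add_mem' := by
    rintro a b ⟨ha1, ha2⟩ ⟨hb1, hb2⟩
    exact ⟨V.add_mem ha1 hb1, (fix Z).add_mem ha2 hb2⟩
  zero_mem' := ⟨V.zero_mem, (fix Z).zero_mem⟩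
  smul_mem' := by
    rintro c x ⟨h1, h2⟩
    exact ⟨V.smul_mem c h1, (fix Z).smul_mem c h2⟩

omit [FiniteDimensional ℝ F] in
theorem mem_blockSum {V : Submodule F (Sp F r)} {Z : Matrix (Fin s) (Fin s) ℝ}
    {x : Sp F (r + s)} : x ∈ blockSum V Z ↔ lft x ∈ V ∧ rgt x ∈ (fix Z : Submodule F (Sp F s)) :=
  Iff.rfl

omit [FiniteDimensional ℝ F] in
theorem finrank_blockSum [FiniteDimensional F (Sp F r)] [FiniteDimensional F (Sp F s)]
    (V : Submodule F (Sp F r)) (Z : Matrix (Fin s) (Fin s) ℝ) :
    finrank F (blockSum V Z) = finrank F V + finrank F (fix Z : Submodule F (Sp F s)) := by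
  let e : blockSum V Z ≃ₗ[F] V × (fix Z : Submodule F (Sp F s)) :=
    { toFun := fun x => (⟨lft x.1, x.2.1⟩, ⟨rgt x.1, x.2.2⟩)
      invFun := fun y => ⟨glue y.1.1 y.2.1, by
        rw [mem_blockSum, lft_glue, rgt_glue]; exact ⟨y.1.2, y.2.2⟩⟩
      left_inv := fun x => Subtype.ext (glue_eta x.1)
      right_inv := fun y => by
        apply Prod.ext
        · apply Subtype.ext; exact lft_glue _ _
        · apply Subtype.ext; exact rgt_glue _ _
      map_add' := fun x y => rfl
      map_smul' := fun c x => rfl }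
  rw [e.finrank_eq, Module.finrank_prod]

theorem proj_blockSum (V : Submodule F (Sp F r)) (Z : Matrix (Fin s) (Fin s) ℝ)
    (hZt : Zᵀ = Z) (hZ : Z * Z = 1) (x : Sp F (r + s)) :
    proj (blockSum V Z) x = glue (proj V (lft x)) ((1/2:ℝ) • (rgt x + act Z (rgt x))) := by
  unfold proj
  apply Submodule.eq_starProjection_of_mem_of_inner_eq_zero
  · rw [Submodule.restrictScalars_mem, mem_blockSum, lft_glue, rgt_glue]
    refine ⟨?_, ?_⟩
    · exact Submodule.starProjection_apply_mem (V.restrictScalars ℝ) (lft x)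
    · rw [mem_fix, map_smul, map_add, ← act_mul, hZ, act_one, add_comm]
  · intro w hw
    rw [Submodule.restrictScalars_mem, mem_blockSum] at hw
    rw [inner_lr, lft_sub, rgt_sub, lft_glue, rgt_glue]
    have h1 : inner ℝ (lft x - (V.restrictScalars ℝ).starProjection (lft x)) (lft w) = 0 :=
      Submodule.starProjection_inner_eq_zero _ _ hw.1
    rw [h1, zero_add]
    have h2 : rgt x - (1/2:ℝ) • (rgt x + act Z (rgt x)) = (1/2:ℝ) • (rgt x - act Z (rgt x)) := by
      module
    rw [h2, inner_smul_left, inner_sub_left, act_inner Z hZt, mem_fix.mp hw.2, sub_self, mul_zero]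

theorem EquiIsoclinic.block {n p : ℕ} {lam : ℝ} {V : Fin p → Submodule F (Sp F r)}
    (h : EquiIsoclinic F n r p lam V) (hp : 2 ≤ p) {D : ℕ} (hs : s = 2 * D)
    (Z : Fin p → Matrix (Fin s) (Fin s) ℝ) (T T' : Matrix (Fin s) (Fin s) ℝ)
    (h1 : ∀ i, (Z i)ᵀ = Z i) (h2 : ∀ i, Z i * Z i = 1)
    (h3 : ∀ i j, i ≠ j → Z i * Z j + Z j * Z i = (2 * (2 * lam - 1)) • (1 : Matrix _ _ ℝ))
    (hT : T' * T = 1) (hTZ : ∀ i, T * Z i = - (Z i * T)) :
    EquiIsoclinic F (n + D) (r + s) p lam (fun i => blockSum (V i) (Z i)) where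
  nonneg := h.nonneg
  lt_one := h.lt_one
  rank := by
    intro i
    have := two_mul_finrank_fix (F := F) (Z i) T T' (h2 i) hT (hTZ i)
    rw [finrank_blockSum, h.rank]
    omega
  span := by
    unfold Spans
    rw [eq_top_iff]
    intro x _
    have hl : ∀ a : Sp F r, glue a (0 : Sp F s) ∈ ⨆ i, blockSum (V i) (Z i) := by
      intro a
      have ha : a ∈ ⨆ i, V i := by
        have h0 : ⨆ i, V i = ⊤ := h.span
        rw [h0]; trivial
      induction ha using Submodule.iSup_induction' with
      | mem i a ha =>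
        apply Submodule.mem_iSup_of_mem i
        rw [mem_blockSum, lft_glue, rgt_glue]
        exact ⟨ha, Submodule.zero_mem _⟩
      | zero =>
        have : glue (0 : Sp F r) (0 : Sp F s) = 0 := ext_lr (by simp) (by simp)
        rw [this]; exact Submodule.zero_mem _
      | add a b _ _ ha hb =>
        have : glue (a + b) (0 : Sp F s) = glue a 0 + glue b 0 := ext_lr (by simp) (by simp)
        rw [this]; exact Submodule.add_mem _ ha hb
    have hr' : ∀ i, ∀ b : Sp F s, b ∈ (fix (Z i) : Submodule F (Sp F s)) →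
        glue (0 : Sp F r) b ∈ ⨆ i, blockSum (V i) (Z i) := by
      intro i b hb
      apply Submodule.mem_iSup_of_mem i
      rw [mem_blockSum, lft_glue, rgt_glue]
      exact ⟨Submodule.zero_mem _, hb⟩
    have hr : ∀ b : Sp F s, glue (0 : Sp F r) b ∈ ⨆ i, blockSum (V i) (Z i) := by
      intro b
      set i : Fin p := ⟨0, by omega⟩ with hi
      set j : Fin p := ⟨1, by omega⟩ with hj
      have hij : i ≠ j := by simp [hi, hj]
      have hlam : (1 - lam) ≠ 0 := by have := h.lt_one; linarith
      have hrel : act (Z i) (act (Z j) b) + act (Z j) (act (Z i) b) =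
          (2 * (2 * lam - 1)) • b := by
        rw [← act_mul, ← act_mul, ← act_add, h3 i j hij, act_smul, act_one]
      have hdec : b = (1 - lam)⁻¹ • ((1/2:ℝ) • (((1/2:ℝ) • (b - act (Z j) b)) +
          act (Z i) ((1/2:ℝ) • (b - act (Z j) b)))) + (1 - lam)⁻¹ • ((1/2:ℝ) •
          (((1/2:ℝ) • (b - act (Z i) b)) + act (Z j) ((1/2:ℝ) • (b - act (Z i) b)))) := by
        have e1 : (1 - lam) • b = ((1/2:ℝ) • (((1/2:ℝ) • (b - act (Z j) b)) +
          act (Z i) ((1/2:ℝ) • (b - act (Z j) b)))) + ((1/2:ℝ) •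
          (((1/2:ℝ) • (b - act (Z i) b)) + act (Z j) ((1/2:ℝ) • (b - act (Z i) b)))) := by
          simp only [map_smul, map_sub]
          calc (1 - lam) • b = (1/2:ℝ) • b - (1/4:ℝ) • ((2 * (2 * lam - 1)) • b) := by module
            _ = _ := by rw [← hrel]; module
        rw [← smul_add, ← e1, smul_smul, inv_mul_cancel₀ hlam, one_smul]
      rw [hdec]
      have hfix : ∀ i, ∀ w : Sp F s, (1 - lam)⁻¹ • ((1/2:ℝ) • (w + act (Z i) w)) ∈
          (fix (Z i) : Submodule F (Sp F s)) := by
        intro i w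
        rw [mem_fix, map_smul, map_smul, map_add, ← act_mul, h2 i, act_one, add_comm]
      have hsplit : ∀ u v : Sp F s, glue (0 : Sp F r) (u + v) = glue 0 u + glue 0 v :=
        fun u v => ext_lr (by simp) (by simp)
      rw [hsplit]
      exact Submodule.add_mem _ (hr' i _ (hfix i _)) (hr' j _ (hfix j _))
    have hx : x = glue (lft x) 0 + glue 0 (rgt x) := ext_lr (by simp) (by simp)
    rw [hx]
    exact Submodule.add_mem _ (hl _) (hr _)
  iso := by
    intro i j hij
    rw [iso_iff]
    intro x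
    rw [proj_blockSum _ _ (h1 i) (h2 i), proj_blockSum _ _ (h1 j) (h2 j),
      proj_blockSum _ _ (h1 i) (h2 i)]
    apply ext_lr
    · simp only [lft_glue, lft_smulR]
      exact iso_iff.mp (h.iso i j hij) (lft x)
    · simp only [rgt_glue, rgt_smulR]
      generalize rgt x = y
      have haa : ∀ y : Sp F s, act (Z i) (act (Z i) y) = y := by
        intro y; rw [← act_mul, h2, act_one]
      have hrel : ∀ y : Sp F s, act (Z i) (act (Z j) y) + act (Z j) (act (Z i) y) =
          (2 * (2 * lam - 1)) • y := by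
        intro y
        rw [← act_mul, ← act_mul, ← act_add, h3 i j hij, act_smul, act_one]
      have h5 : act (Z i) (act (Z j) (act (Z i) y)) =
          (2 * (2 * lam - 1)) • act (Z i) y - act (Z j) y := by
        rw [← hrel (act (Z i) y), haa]; abel
      simp only [map_smul, map_add, haa, h5]
      have h6 := hrel y
      calc _ = (1/8:ℝ) • ((2:ℝ) • y + (2:ℝ) • act (Z i) y +
            (act (Z i) (act (Z j) y) + act (Z j) (act (Z i) y)) +
            (2 * (2 * lam - 1)) • act (Z i) y) := by module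
        _ = _ := by rw [h6]; module

end Sum

end Pool.Agent.H32Iso
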