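import Pool.Agent.H32Iso.CodimOne

set_option autoImplicit false

/-! Existence of three equi-isoclinic `n`-subspaces of `ℝ ^ (2 n + 1)`. -/

namespace Pool.Agent.H32Iso

open Module Matrix

/-- vectors in `ℝ ^ 3` -/
noncomputable def vec3 (i : Fin 3) : Sp ℝ 3 := WithLp.toLp 2 (![![1, 1, 0], ![1, 0, 1], ![0, 1, 1]] i)

theorem vec3_inner (i j : Fin 3) : inner ℝ (vec3 i) (vec3 j) = if i = j then (2:ℝ) else 1 := by
  simp only [PiLp.inner_apply, Fin.sum_univ_three, vec3]
  fin_cases i <;> fin_cases j <;> simp <;> norm_num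

theorem proj_span (x v : Sp ℝ 3) (hx : inner ℝ x x = (2:ℝ)) :
    proj (ℝ ∙ x) v = (inner ℝ x v / 2) • x := by
  have h1 : ((ℝ ∙ x).restrictScalars ℝ) = (ℝ ∙ x) := rfl
  unfold proj
  simp only [h1]
  rw [Submodule.starProjection_singleton, ← real_inner_self_eq_norm_sq, hx]
  rfl

theorem base_triple : EquiIsoclinic ℝ 1 3 3 (1/4) (fun i => ℝ ∙ vec3 i) where
  nonneg := by norm_num
  lt_one := by norm_num
  rank := by
    intro i
    apply finrank_span_singleton
    intro h
    have := vec3_inner i i
    rw [h, if_pos rfl, inner_zero_left] at this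
    norm_num at this
  span := by
    unfold Spans
    rw [eq_top_iff]
    intro x _
    have hx : x = ((x 0 + x 1 - x 2) / 2) • vec3 0 + ((x 0 - x 1 + x 2) / 2) • vec3 1 +
        ((- x 0 + x 1 + x 2) / 2) • vec3 2 := by
      ext i
      fin_cases i <;> simp [vec3] <;> ring
    rw [hx]
    refine Submodule.add_mem _ (Submodule.add_mem _ ?_ ?_) ?_
    · exact Submodule.mem_iSup_of_mem 0 (Submodule.smul_mem _ _ (Submodule.mem_span_singleton_self _))
    · exact Submodule.mem_iSup_of_mem 1 (Submodule.smul_mem _ _ (Submodule.mem_span_singleton_self _))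
    · exact Submodule.mem_iSup_of_mem 2 (Submodule.smul_mem _ _ (Submodule.mem_span_singleton_self _))
  iso := by
    intro i j hij
    rw [iso_iff]
    intro v
    have hi := vec3_inner i i
    have hj := vec3_inner j j
    have h1 := vec3_inner i j
    have h2 := vec3_inner j i
    rw [if_pos rfl] at hi hj
    rw [if_neg hij] at h1
    rw [if_neg (Ne.symm hij)] at h2
    rw [proj_span _ _ hi, proj_span _ _ hj, proj_span _ _ hi, inner_smul_right, inner_smul_right,
      h1, h2, smul_smul]
    congr 1
    ring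

/-- three symmetric involutions of the plane -/
noncomputable def Z3 (i : Fin 3) : Matrix (Fin 2) (Fin 2) ℝ :=
  ![!![1, 0; 0, -1], !![-1/2, Real.sqrt 3 / 2; Real.sqrt 3 / 2, 1/2],
    !![-1/2, -Real.sqrt 3 / 2; -Real.sqrt 3 / 2, 1/2]] i

theorem exists_triple (n : ℕ) (hn : 1 ≤ n) :
    ∃ V : Fin 3 → Submodule ℝ (Sp ℝ (2 * n + 1)), EquiIsoclinic ℝ n (2 * n + 1) 3 (1/4) V := by
  induction n, hn using Nat.le_induction with
  | base => exact ⟨_, base_triple⟩
  | succ n hn ih =>
    obtain ⟨V, h⟩ := ih
    have h3 : Real.sqrt 3 * Real.sqrt 3 = 3 := Real.mul_self_sqrt (by norm_num)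
    have h4 := h.block (by norm_num) (s := 2) (D := 1) rfl Z3 !![0, 1; -1, 0] !![0, -1; 1, 0]
      (by
        intro i
        fin_cases i <;> · ext a b; fin_cases a <;> fin_cases b <;> simp [Z3])
      (by
        intro i
        fin_cases i <;> · ext a b; fin_cases a <;> fin_cases b <;>
          simp [Z3, Matrix.mul_apply, Fin.sum_univ_succ] <;> nlinarith)
      (by
        intro i j hij
        fin_cases i <;> fin_cases j <;> first | exact absurd rfl hij | skip
        all_goals
          ext a b; fin_cases a <;> fin_cases b <;>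
          simp [Z3, Matrix.mul_apply, Fin.sum_univ_succ] <;> nlinarith)
      (by ext a b; fin_cases a <;> fin_cases b <;> simp)
      (by
        intro i
        fin_cases i <;> · ext a b; fin_cases a <;> fin_cases b <;>
          simp [Z3] <;> ring)
    exact ⟨_, h4⟩

end Pool.Agent.H32Iso
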